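import Mathlib

set_option autoImplicit false

namespace Pool.Agent.H.MP_4cad9a_co_h81

open Finset

/-- Number of functions with prescribed values on the range of an injective map. -/
lemma card_cylinder {ι V X : Type*} [Fintype ι] [Fintype V] [Fintype X] [DecidableEq V]
    [DecidableEq X] (f : ι → V) (hf : Function.Injective f) (c : ι → X) :
    (univ.filter fun τ : V → X => ∀ i, τ (f i) = c i).card * Fintype.card X ^ Fintype.card ι
      = Fintype.card X ^ Fintype.card V := by
  classical
  have h1 : (univ.filter fun τ : V → X => ∀ i, τ (f i) = c i)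
      = Fintype.piFinset (fun v => univ.filter fun x => ∀ i, f i = v → x = c i) := by
    ext τ
    simp only [mem_filter, mem_univ, true_and, Fintype.mem_piFinset]
    constructor
    · rintro h v i rfl; exact h i
    · intro h i; exact h (f i) i rfl
  rw [h1, Fintype.card_piFinset]
  have h2 : Fintype.card X ^ Fintype.card ι
      = ∏ v : V, (if v ∈ univ.image f then Fintype.card X else 1) := by
    rw [Finset.prod_ite_mem, Finset.univ_inter, Finset.prod_const, Finset.card_image_of_injective _ hf,
      Finset.card_univ]
  rw [h2, ← Finset.prod_mul_distrib]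
  have h3 : ∀ v : V, (univ.filter fun x => ∀ i, f i = v → x = c i).card *
      (if v ∈ univ.image f then Fintype.card X else 1) = Fintype.card X := by
    intro v
    split_ifs with hv
    · obtain ⟨i, -, rfl⟩ := Finset.mem_image.1 hv
      have : (univ.filter fun x => ∀ j, f j = f i → x = c j) = {c i} := by
        ext x
        simp only [mem_filter, mem_univ, true_and, mem_singleton]
        constructor
        · intro h; exact h i rfl
        · rintro rfl j hj; rw [hf hj]
      rw [this]; simp
    · have : (univ.filter fun x : X => ∀ j, f j = v → x = c j) = univ := by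
        ext x
        simp only [mem_filter, mem_univ, true_and, iff_true]
        intro j hj
        exact absurd (Finset.mem_image.2 ⟨j, mem_univ _, hj⟩) hv
      rw [this, mul_one, Finset.card_univ]
  rw [Finset.prod_congr rfl fun v _ => h3 v, Finset.prod_const, Finset.card_univ]

/-- `C(N,r) r^r ≤ (3N)^r`. -/
lemma choose_mul_pow_le (N r : ℕ) : N.choose r * r ^ r ≤ (3 * N) ^ r := by
  have h1 : (r:ℝ) ^ r ≤ 3 ^ r * (r.factorial : ℝ) := by
    have h := Real.pow_div_factorial_le_exp (r:ℝ) (Nat.cast_nonneg r) r
    have hf : (0:ℝ) < r.factorial := by exact_mod_cast r.factorial_pos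
    rw [div_le_iff₀ hf] at h
    refine h.trans ?_
    gcongr
    have h3 : Real.exp 1 ≤ 3 := by
      have := Real.exp_one_lt_d9; linarith
    calc Real.exp (r:ℝ) = Real.exp 1 ^ r := by rw [← Real.exp_nat_mul]; simp
      _ ≤ 3 ^ r := by gcongr
  have h2 : r ^ r ≤ 3 ^ r * r.factorial := by exact_mod_cast h1
  have h3 : r.factorial * N.choose r ≤ N ^ r := by
    rw [← Nat.descFactorial_eq_factorial_mul_choose]
    exact Nat.descFactorial_le_pow N r
  calc N.choose r * r ^ r ≤ N.choose r * (3 ^ r * r.factorial) := Nat.mul_le_mul_left _ h2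
    _ = 3 ^ r * (r.factorial * N.choose r) := by ring
    _ ≤ 3 ^ r * N ^ r := Nat.mul_le_mul_left _ h3
    _ = (3 * N) ^ r := by rw [mul_pow]

section Types

variable {V X : Type*} [Fintype V] [Fintype X] [DecidableEq V] [DecidableEq X]

/-- A family of disjoint ordered pairs of distinct vertices. -/
def Valid (M : Finset (V × V)) : Prop :=
  Function.Injective (Sum.elim (fun a : M => a.1.1) (fun a : M => a.1.2))

/-- the map `(u, v) ↦ (τ u, τ v)`. -/
def ty (τ : V → X) (a : V × V) : X × X := (τ a.1, τ a.2)

lemma card_types_subset (M : Finset (V × V)) (hM : Valid M) (S : Finset (X × X)) :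
    (univ.filter fun τ : V → X => ∀ a ∈ M, ty τ a ∈ S).card * Fintype.card X ^ (2 * M.card)
      ≤ S.card ^ M.card * Fintype.card X ^ Fintype.card V := by
  classical
  have hsub : (univ.filter fun τ : V → X => ∀ a ∈ M, ty τ a ∈ S) ⊆
      (Fintype.piFinset (fun _ : M => S)).biUnion fun g =>
        univ.filter fun τ : V → X => ∀ i : M ⊕ M,
          τ (Sum.elim (fun a : M => a.1.1) (fun a : M => a.1.2) i)
            = Sum.elim (fun a : M => (g a).1) (fun a : M => (g a).2) i := by
    intro τ hτ
    simp only [mem_filter, mem_univ, true_and] at hτ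
    simp only [mem_biUnion, mem_filter, mem_univ, true_and, Fintype.mem_piFinset]
    refine ⟨fun a => ty τ a.1, fun a => hτ a.1 a.2, ?_⟩
    rintro (i | i) <;> rfl
  have hcard := (Finset.card_le_card hsub).trans Finset.card_biUnion_le
  have hcyl : ∀ g : M → X × X, (univ.filter fun τ : V → X => ∀ i : M ⊕ M,
          τ (Sum.elim (fun a : M => a.1.1) (fun a : M => a.1.2) i)
            = Sum.elim (fun a : M => (g a).1) (fun a : M => (g a).2) i).card
        * Fintype.card X ^ (2 * M.card) = Fintype.card X ^ Fintype.card V := by
    intro g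
    have := card_cylinder (Sum.elim (fun a : M => a.1.1) (fun a : M => a.1.2)) hM
      (Sum.elim (fun a : M => (g a).1) (fun a : M => (g a).2))
    rw [Fintype.card_sum, Fintype.card_coe, ← two_mul] at this
    exact this
  calc _ ≤ (∑ g ∈ Fintype.piFinset (fun _ : M => S), (univ.filter fun τ : V → X => ∀ i : M ⊕ M,
          τ (Sum.elim (fun a : M => a.1.1) (fun a : M => a.1.2) i)
            = Sum.elim (fun a : M => (g a).1) (fun a : M => (g a).2) i).card)
        * Fintype.card X ^ (2 * M.card) := Nat.mul_le_mul_right _ hcard
    _ = ∑ g ∈ Fintype.piFinset (fun _ : M => S), Fintype.card X ^ Fintype.card V := by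
        rw [Finset.sum_mul]
        exact Finset.sum_congr rfl fun g _ => hcyl g
    _ = S.card ^ M.card * Fintype.card X ^ Fintype.card V := by
        rw [Finset.sum_const, Fintype.card_piFinset]
        simp

lemma card_types_few (M : Finset (V × V)) (hM : Valid M) (s : ℕ)
    (hs : s ≤ Fintype.card X ^ 2) :
    (univ.filter fun τ : V → X => (M.image (ty τ)).card < s).card *
        Fintype.card X ^ (2 * M.card)
      ≤ (Fintype.card X ^ 2).choose s * s ^ M.card * Fintype.card X ^ Fintype.card V := by
  classical
  have hXX : Fintype.card (X × X) = Fintype.card X ^ 2 := by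
    rw [Fintype.card_prod, sq]
  have hsub : (univ.filter fun τ : V → X => (M.image (ty τ)).card < s) ⊆
      (Finset.powersetCard s (univ : Finset (X × X))).biUnion fun S =>
        univ.filter fun τ : V → X => ∀ a ∈ M, ty τ a ∈ S := by
    intro τ hτ
    simp only [mem_filter, mem_univ, true_and] at hτ
    simp only [mem_biUnion, mem_filter, mem_univ, true_and]
    obtain ⟨S, hS1, hS2⟩ := Finset.exists_superset_card_eq hτ.le (by rw [hXX]; exact hs)
    refine ⟨S, by rw [Finset.mem_powersetCard]; exact ⟨subset_univ _, hS2⟩, fun a ha => ?_⟩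
    exact hS1 (Finset.mem_image_of_mem _ ha)
  have hcard := (Finset.card_le_card hsub).trans Finset.card_biUnion_le
  calc _ ≤ (∑ S ∈ Finset.powersetCard s (univ : Finset (X × X)),
          (univ.filter fun τ : V → X => ∀ a ∈ M, ty τ a ∈ S).card)
        * Fintype.card X ^ (2 * M.card) := Nat.mul_le_mul_right _ hcard
    _ ≤ ∑ S ∈ Finset.powersetCard s (univ : Finset (X × X)),
          s ^ M.card * Fintype.card X ^ Fintype.card V := by
        rw [Finset.sum_mul]
        refine Finset.sum_le_sum fun S hS => ?_
        have := card_types_subset M hM S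
        rw [(Finset.mem_powersetCard.1 hS).2] at this
        exact this
    _ = _ := by
        rw [Finset.sum_const, Finset.card_powersetCard, Finset.card_univ, hXX, smul_eq_mul,
          mul_assoc]

lemma card_big_fibre (K : ℕ) :
    (univ.filter fun τ : V → X => ∃ x, K < (univ.filter fun v => τ v = x).card).card *
        Fintype.card X ^ (K + 1)
      ≤ Fintype.card X * (Fintype.card V).choose (K + 1) *
        Fintype.card X ^ Fintype.card V := by
  classical
  have hsub : (univ.filter fun τ : V → X => ∃ x, K < (univ.filter fun v => τ v = x).card) ⊆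
      ((univ : Finset X) ×ˢ Finset.powersetCard (K + 1) (univ : Finset V)).biUnion fun q =>
        univ.filter fun τ : V → X => ∀ i : q.2, τ i.1 = q.1 := by
    intro τ hτ
    simp only [mem_filter, mem_univ, true_and] at hτ
    obtain ⟨x, hx⟩ := hτ
    obtain ⟨Q, hQ1, hQ2⟩ := Finset.exists_subset_card_eq (show K + 1 ≤ _ from hx)
    simp only [mem_biUnion, mem_filter, mem_univ, true_and, mem_product]
    refine ⟨(x, Q), Finset.mem_powersetCard.2 ⟨subset_univ _, hQ2⟩, fun i => ?_⟩
    exact (mem_filter.1 (hQ1 i.2)).2
  have hcard := (Finset.card_le_card hsub).trans Finset.card_biUnion_le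
  calc _ ≤ (∑ q ∈ (univ : Finset X) ×ˢ Finset.powersetCard (K + 1) (univ : Finset V),
          (univ.filter fun τ : V → X => ∀ i : q.2, τ i.1 = q.1).card)
        * Fintype.card X ^ (K + 1) := Nat.mul_le_mul_right _ hcard
    _ = ∑ q ∈ (univ : Finset X) ×ˢ Finset.powersetCard (K + 1) (univ : Finset V),
          Fintype.card X ^ Fintype.card V := by
        rw [Finset.sum_mul]
        refine Finset.sum_congr rfl fun q hq => ?_
        have h := card_cylinder (fun i : q.2 => i.1) Subtype.val_injective (fun _ => q.1)
        rw [Fintype.card_coe, (Finset.mem_powersetCard.1 (Finset.mem_product.1 hq).2).2] at h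
        exact h
    _ = _ := by
        rw [Finset.sum_const, Finset.card_product, Finset.card_powersetCard, Finset.card_univ,
          Finset.card_univ, smul_eq_mul]

end Types

end Pool.Agent.H.MP_4cad9a_co_h81
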