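import Mathlib

set_option autoImplicit false

namespace Pool.Agent.H.MP_4cad9a_co_h81

/-- A `p`-scheme in a graph `H`: `p` distinct vertices (the basis) and, for every pair `i < j`, a
path of `H` (the link) from the `i`-th to the `j`-th basis vertex, such that the links `P_ij` and
`P_kl` are vertex-disjoint whenever `i, j, k, l` are pairwise distinct. -/
structure Scheme {V : Type*} (H : SimpleGraph V) (p : ℕ) where
  /-- the basis of the scheme -/
  basis : Fin p → V
  /-- the basis vertices are distinct -/
  basis_injective : Function.Injective basis
  /-- the links of the scheme -/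
  link : ∀ i j : Fin p, i < j → H.Path (basis i) (basis j)
  /-- links whose four indices are pairwise distinct are vertex-disjoint -/
  link_disjoint : ∀ (i j k l : Fin p) (hij : i < j) (hkl : k < l),
    i ≠ k → i ≠ l → j ≠ k → j ≠ l →
    ∀ x, x ∈ (link i j hij).1.support → x ∉ (link k l hkl).1.support

/-- The pair `(Q, S)` is a chromatic `p`-scheme in `H`: `Q` is a (proper) `p`-colouring of `H`, the
basis vertices have pairwise distinct colours, and each link is the vertex set of a path joining
its two basis vertices all of whose vertices have one of two colours `α`, `β`. -/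
def IsChromatic {V : Type*} {H : SimpleGraph V} {p : ℕ} (Q : H.Coloring (Fin p))
    (S : Scheme H p) : Prop :=
  (Function.Injective fun i => Q (S.basis i)) ∧
  ∀ (i j : Fin p) (hij : i < j), ∃ (α β : Fin p) (P : H.Path (S.basis i) (S.basis j)),
    (∀ x, x ∈ P.1.support ↔ x ∈ (S.link i j hij).1.support) ∧
    ∀ x ∈ P.1.support, Q x = α ∨ Q x = β

end Pool.Agent.H.MP_4cad9a_co_h81
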