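import Pool.Agent.H.MP_4cad9a_co_h81.Defs

set_option autoImplicit false

namespace Pool.Agent.H.MP_4cad9a_co_h81

open Finset

/-- A walk whose vertices satisfy `R` and which starts in a set `S` closed under `R`-steps ends in
`S`. -/
lemma walk_closed {V : Type*} {H : SimpleGraph V} (R S : V → Prop)
    (hcl : ∀ a b, S a → H.Adj a b → R b → S b) {x y : V} (w : H.Walk x y)
    (hR : ∀ z ∈ w.support, R z) (hx : S x) : S y := by
  induction w with
  | nil => exact hx
  | @cons u v w' hadj p ih =>
    apply ih
    · intro z hz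
      exact hR z (by simp [hz])
    · exact hcl _ _ hx hadj (hR _ (by simp))

/-- Two-colour classes of a scheme. -/
lemma scheme_closed {V : Type*} {H G : SimpleGraph V} (hG : ∀ a b, G.Adj a b → ¬ H.Adj a b)
    {p : ℕ} {G' : G.Subgraph} {Q : G'.coe.Coloring (Fin p)} {S : Scheme G'.coe p}
    (hS : IsChromatic Q S) (i j : Fin p) (hij : i ≠ j)
    (T : G'.verts → Prop) (hTi : T (S.basis i)) (hTj : ¬ T (S.basis j))
    (hcl : ∀ a b : G'.verts, T a → ¬ H.Adj a.1 b.1 → Q a ≠ Q b →
      (Q a = Q (S.basis i) ∨ Q a = Q (S.basis j)) →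
      (Q b = Q (S.basis i) ∨ Q b = Q (S.basis j)) → T b)
    (hTc : ∀ a, T a → (Q a = Q (S.basis i) ∨ Q a = Q (S.basis j))) : False := by
  have key : ∃ w : G'.coe.Walk (S.basis i) (S.basis j),
      ∀ z ∈ w.support, Q z = Q (S.basis i) ∨ Q z = Q (S.basis j) := by
    rcases lt_or_gt_of_ne hij with h | h
    · obtain ⟨α, β, P, -, hP⟩ := hS.2 i j h
      refine ⟨P.1, fun z hz => ?_⟩
      have h1 := hP _ (P.1.start_mem_support)
      have h2 := hP _ (P.1.end_mem_support)
      have h3 := hP z hz
      have hne : Q (S.basis i) ≠ Q (S.basis j) := fun h => hij (hS.1 h)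
      rcases h1 with h1 | h1 <;> rcases h2 with h2 | h2 <;> rcases h3 with h3 | h3
      all_goals first
        | (exfalso; exact hne (h1.trans h2.symm))
        | (left; exact h3.trans h1.symm)
        | (right; exact h3.trans h2.symm)
    · obtain ⟨α, β, P, -, hP⟩ := hS.2 j i h
      refine ⟨P.1.reverse, fun z hz => ?_⟩
      have hz' : z ∈ P.1.support := by simpa using hz
      have h1 := hP _ (P.1.start_mem_support)
      have h2 := hP _ (P.1.end_mem_support)
      have h3 := hP z hz'
      have hne : Q (S.basis j) ≠ Q (S.basis i) := fun h => hij (hS.1 h).symm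
      rcases h1 with h1 | h1 <;> rcases h2 with h2 | h2 <;> rcases h3 with h3 | h3
      all_goals first
        | (exfalso; exact hne (h1.trans h2.symm))
        | (right; exact h3.trans h1.symm)
        | (left; exact h3.trans h2.symm)
  obtain ⟨w, hw⟩ := key
  refine hTj (walk_closed (fun z => Q z = Q (S.basis i) ∨ Q z = Q (S.basis j)) T ?_ w hw hTi)
  intro a b ha hab hb
  refine hcl a b ha ?_ (Q.valid hab) (hTc a ha) hb
  exact hG _ _ (G'.adj_sub hab)

/-- The colour class of the `i`-th basis vertex, as a set of vertices of the big graph. -/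
noncomputable def cls {V : Type*} [Fintype V] {G : SimpleGraph V} {p : ℕ} {G' : G.Subgraph}
    (Q : G'.coe.Coloring (Fin p)) (S : Scheme G'.coe p) (i : Fin p) : Finset V := by
  classical
  exact univ.filter fun u => ∃ h : u ∈ G'.verts, Q ⟨u, h⟩ = Q (S.basis i)

lemma mem_cls {V : Type*} [Fintype V] {G : SimpleGraph V} {p : ℕ} {G' : G.Subgraph}
    (Q : G'.coe.Coloring (Fin p)) (S : Scheme G'.coe p) (i : Fin p) (u : V) :
    u ∈ cls Q S i ↔ ∃ h : u ∈ G'.verts, Q ⟨u, h⟩ = Q (S.basis i) := by
  classical
  simp [cls]

lemma basis_mem_cls {V : Type*} [Fintype V] {G : SimpleGraph V} {p : ℕ} {G' : G.Subgraph}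
    (Q : G'.coe.Coloring (Fin p)) (S : Scheme G'.coe p) (i : Fin p) :
    (S.basis i).1 ∈ cls Q S i := by
  rw [mem_cls]; exact ⟨(S.basis i).2, rfl⟩

/-- Small colour classes in a colouring of the complement of a triangle-free graph. -/
lemma card_le_two_mul {V : Type*} [Fintype V] (H : SimpleGraph V) (htri : H.CliqueFree 3)
    {p : ℕ} (C : Hᶜ.Coloring (Fin p)) : Fintype.card V ≤ 2 * p := by
  classical
  have h1 : ∀ c : Fin p, (univ.filter fun u => C u = c).card ≤ 2 := by
    intro c
    by_contra hcon
    push Not at hcon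
    obtain ⟨s, hs, hs3⟩ := Finset.exists_subset_card_eq (s := univ.filter fun u => C u = c) hcon
    refine htri s ⟨?_, hs3⟩
    intro a ha b hb hab
    have ha' := hs ha
    have hb' := hs hb
    simp only [mem_filter, mem_univ, true_and] at ha' hb'
    by_contra hnadj
    have : Hᶜ.Adj a b := by rw [SimpleGraph.compl_adj]; exact ⟨hab, hnadj⟩
    exact C.valid this (ha'.trans hb'.symm)
  calc Fintype.card V = (univ : Finset V).card := rfl
    _ = ∑ c : Fin p, (univ.filter fun u => C u = c).card :=
        Finset.card_eq_sum_card_fiberwise (fun x _ => mem_univ _)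
    _ ≤ ∑ _c : Fin p, 2 := Finset.sum_le_sum fun c _ => h1 c
    _ = 2 * p := by simp [mul_comm]

theorem no_scheme {V : Type*} [Fintype V] (H : SimpleGraph V) (t : ℕ)
    (hcard : Fintype.card V = 10 * t) (htri : H.CliqueFree 3)
    (hP : ∀ v w : Fin t → V, Function.Injective (Sum.elim v w) →
      ∃ i j, H.Adj (v i) (v j) ∧ H.Adj (w i) (w j))
    {p : ℕ} (hp : Hᶜ.chromaticNumber = p) (G' : Hᶜ.Subgraph) (Q : G'.coe.Coloring (Fin p))
    (S : Scheme G'.coe p) : ¬ IsChromatic Q S := by
  classical
  intro hS
  have hcol : Hᶜ.Colorable p := by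
    have := SimpleGraph.colorable_of_chromaticNumber_ne_top (G := Hᶜ) (by rw [hp]; simp)
    rw [hp] at this
    simpa using this
  obtain ⟨C⟩ := hcol
  have h2p : 10 * t ≤ 2 * p := hcard ▸ card_le_two_mul H htri C
  have hG : ∀ a b, Hᶜ.Adj a b → ¬ H.Adj a b := fun a b h => by
    rw [SimpleGraph.compl_adj] at h; exact h.2
  -- classes are disjoint
  have hdisj : ∀ i j u, u ∈ cls Q S i → u ∈ cls Q S j → i = j := by
    intro i j u hi hj
    rw [mem_cls] at hi hj
    obtain ⟨h, hi⟩ := hi
    obtain ⟨h', hj⟩ := hj
    exact hS.1 (hi.symm.trans hj)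
  have hsum : ∑ i : Fin p, (cls Q S i).card ≤ 10 * t := by
    rw [← hcard, ← Finset.card_biUnion]
    · exact Finset.card_le_univ _
    · intro i _ j _ hij
      rw [Function.onFun, Finset.disjoint_left]
      intro u hi hj
      exact hij (hdisj i j u hi hj)
  have hpos : ∀ i, 1 ≤ (cls Q S i).card := fun i =>
    Finset.card_pos.2 ⟨_, basis_mem_cls Q S i⟩
  set A := univ.filter fun i : Fin p => (cls Q S i).card = 1 with hA
  set B := univ.filter fun i : Fin p => (cls Q S i).card = 2 with hB
  have hcount : 3 * p ≤ 10 * t + 2 * A.card + B.card := by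
    have h1 : ∀ i : Fin p, 3 ≤ (cls Q S i).card + (if (cls Q S i).card = 1 then 2 else 0) +
        (if (cls Q S i).card = 2 then 1 else 0) := by
      intro i
      have := hpos i
      split_ifs <;> omega
    have h2 := Finset.sum_le_sum (fun i (_ : i ∈ (univ : Finset (Fin p))) => h1 i)
    rw [Finset.sum_add_distrib, Finset.sum_add_distrib, Finset.sum_const, Finset.card_univ,
      Fintype.card_fin, ← Finset.sum_filter, ← Finset.sum_filter, Finset.sum_const,
      Finset.sum_const] at h2
    simp only [smul_eq_mul, mul_one] at h2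
    rw [← hA, ← hB] at h2
    omega
  -- single classes
  have hsingle : ∀ i j, i ∈ A → j ∈ A → i ≠ j → ¬ H.Adj (S.basis i).1 (S.basis j).1 := by
    intro i j hi hj hij hadj
    rw [hA, mem_filter] at hi hj
    have hi1 : ∀ u, u ∈ cls Q S i → u = (S.basis i).1 := by
      obtain ⟨a, ha⟩ := Finset.card_eq_one.1 hi.2
      intro u hu
      have hb := basis_mem_cls Q S i
      rw [ha, mem_singleton] at hu hb
      exact hu.trans hb.symm
    have hj1 : ∀ u, u ∈ cls Q S j → u = (S.basis j).1 := by
      obtain ⟨a, ha⟩ := Finset.card_eq_one.1 hj.2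
      intro u hu
      have hb := basis_mem_cls Q S j
      rw [ha, mem_singleton] at hu hb
      exact hu.trans hb.symm
    refine scheme_closed hG hS i j hij (fun a => a = S.basis i) rfl
      (fun h => hij (S.basis_injective h).symm) ?_ ?_
    · rintro a b rfl hnadj hne - hb
      rcases hb with hb | hb
      · exact absurd hb.symm hne
      · exfalso
        have : b.1 ∈ cls Q S j := by rw [mem_cls]; exact ⟨b.2, hb⟩
        rw [hj1 _ this] at hnadj
        exact hnadj hadj
    · rintro a rfl; exact Or.inl rfl
  by_cases hAcard : 2 * t ≤ A.card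
  · -- many singletons
    have hemb : Nonempty (Fin t ⊕ Fin t ↪ A) := by
      rw [Function.Embedding.nonempty_iff_card_le]
      simp only [Fintype.card_sum, Fintype.card_fin, Fintype.card_coe]
      omega
    obtain ⟨f⟩ := hemb
    obtain ⟨i, j, h1, -⟩ := hP (fun i => (S.basis (f (Sum.inl i)).1).1)
      (fun i => (S.basis (f (Sum.inr i)).1).1) (by
        have : (Sum.elim (fun i => (S.basis (f (Sum.inl i)).1).1)
            (fun i => (S.basis (f (Sum.inr i)).1).1)) = fun x => (S.basis (f x).1).1 := by
          ext x; cases x <;> rfl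
        rw [this]
        intro x y hxy
        exact f.injective (Subtype.ext (S.basis_injective (Subtype.ext hxy))))
    refine hsingle _ _ (f (Sum.inl i)).2 (f (Sum.inl j)).2 ?_ h1
    intro h
    rw [h] at h1
    exact H.loopless.irrefl _ h1
  · -- many pairs
    have hemb : Nonempty (Fin t ↪ B) := by
      rw [Function.Embedding.nonempty_iff_card_le]
      simp only [Fintype.card_fin, Fintype.card_coe]
      omega
    obtain ⟨f⟩ := hemb
    have hw : ∀ i : B, ∃ w : V, w ≠ (S.basis i.1).1 ∧ w ∈ cls Q S i.1 ∧
        ∀ u, u ∈ cls Q S i.1 → u = (S.basis i.1).1 ∨ u = w := by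
      intro i
      have hi : (cls Q S i.1).card = 2 := (mem_filter.1 i.2).2
      obtain ⟨a, b, hab, hcl⟩ := Finset.card_eq_two.1 hi
      have hb := basis_mem_cls Q S i.1
      rw [hcl] at hb
      simp only [mem_insert, mem_singleton] at hb
      rcases hb with hb | hb
      · refine ⟨b, by rw [hb]; exact hab.symm, by rw [hcl]; simp, ?_⟩
        intro u hu
        rw [hcl] at hu
        simpa [hb] using hu
      · refine ⟨a, by rw [hb]; exact hab, by rw [hcl]; simp, ?_⟩
        intro u hu
        rw [hcl] at hu
        simp only [mem_insert, mem_singleton] at hu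
        rw [hb]; exact hu.symm
    choose w hw1 hw2 hw3 using hw
    obtain ⟨i, j, h1, h2⟩ := hP (fun i => (S.basis (f i).1).1) (fun i => w (f i)) (by
      rintro (x | x) (y | y) hxy
      · simp only [Sum.elim_inl] at hxy
        rw [f.injective (Subtype.ext (S.basis_injective (Subtype.ext hxy)))]
      · exfalso
        simp only [Sum.elim_inl, Sum.elim_inr] at hxy
        have h3 : (f x).1 = (f y).1 := hdisj _ _ _ (basis_mem_cls Q S (f x).1) (hxy ▸ hw2 (f y))
        have h4 : f x = f y := Subtype.ext h3
        rw [h4] at hxy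
        exact hw1 (f y) hxy.symm
      · exfalso
        simp only [Sum.elim_inl, Sum.elim_inr] at hxy
        have h3 : (f y).1 = (f x).1 := hdisj _ _ _ (basis_mem_cls Q S (f y).1) (hxy ▸ hw2 (f x))
        have h4 : f y = f x := Subtype.ext h3
        rw [h4] at hxy
        exact hw1 (f x) hxy
      · simp only [Sum.elim_inr] at hxy
        have h3 : (f x).1 = (f y).1 := hdisj _ _ _ (hw2 (f x)) (hxy ▸ hw2 (f y))
        rw [f.injective (Subtype.ext h3)])
    have hij : (f i).1 ≠ (f j).1 := by
      intro h
      rw [h] at h1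
      exact H.loopless.irrefl _ h1
    refine scheme_closed hG hS (f i).1 (f j).1 hij
      (fun a => a = S.basis (f i).1 ∨ a.1 = w (f j)) (Or.inl rfl) ?_ ?_ ?_
    · rintro (h | h)
      · exact hij (S.basis_injective h).symm
      · exact hw1 (f j) h.symm
    · intro a b ha hnadj hne hac hb
      rcases ha with ha | ha
      · -- `b` in the class of `j`
        subst ha
        rcases hb with hb | hb
        · exact absurd hb.symm hne
        · have hbm : b.1 ∈ cls Q S (f j).1 := by rw [mem_cls]; exact ⟨b.2, hb⟩
          rcases hw3 (f j) _ hbm with h | h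
          · exfalso
            rw [h] at hnadj
            exact hnadj h1
          · exact Or.inr h
      · -- `b` in the class of `i`
        have haj : Q a = Q (S.basis (f j).1) := by
          have := hw2 (f j)
          rw [← ha, mem_cls] at this
          exact this.2
        rcases hb with hb | hb
        · have hbm : b.1 ∈ cls Q S (f i).1 := by rw [mem_cls]; exact ⟨b.2, hb⟩
          rcases hw3 (f i) _ hbm with h | h
          · exact Or.inl (Subtype.ext h)
          · exfalso
            rw [h, ha] at hnadj
            exact hnadj h2.symm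
        · exact absurd (haj.trans hb.symm) hne
    · rintro a (rfl | ha)
      · exact Or.inl rfl
      · right
        have := hw2 (f j)
        rw [← ha, mem_cls] at this
        exact this.2

end Pool.Agent.H.MP_4cad9a_co_h81
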