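import Pool.Agent.H.MP_4cad9a_co_h81.Final
import Pool.Agent.H.MP_4cad9a_co_h81.Reduction

set_option autoImplicit false
set_option linter.unusedSectionVars false

namespace Pool.Agent.H.MP_4cad9a_co_h81

open Finset

variable {V X : Type*} [Fintype V] [DecidableEq V] [Fintype X] [DecidableEq X] {T : ℕ}

/-- Existence of the two type maps. -/
theorem exists_types {n m s t K r ν a₀ : ℕ} {c θ : ℝ} (hnum : Num n m s t T K r ν a₀ c θ)
    (hV : Fintype.card V = n) (hX : Fintype.card X = m) :
    ∃ τ₁ τ₂ : V → X, (∀ x, (univ.filter fun v => τ₁ v = x).card ≤ K) ∧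
      (∀ x, (univ.filter fun v => τ₂ v = x).card ≤ K) ∧
      ∀ M : Finset (V × V), Valid M → M.card = t →
        s ≤ (M.image (ty τ₁)).card ∨ s ≤ (M.image (ty τ₂)).card := by
  classical
  have hC : Fintype.card (V → X) = m ^ n := by rw [Fintype.card_fun, hV, hX]
  set C := m ^ n with hCdef
  have hm0 := hnum.hm0
  have hCpos : 0 < C := by positivity
  set F := univ.filter fun τ : V → X => ∃ x, K < (univ.filter fun v => τ v = x).card with hF
  set G : Finset (V × V) → Finset (V → X) := fun M =>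
    univ.filter fun τ : V → X => (M.image (ty τ)).card < s with hG
  have hFc : 16 * F.card ≤ C := by
    have h1 := card_big_fibre (V := V) (X := X) K
    rw [hX, hV] at h1
    have h2 : 16 * F.card * m ^ (K + 1) ≤ C * m ^ (K + 1) := by
      calc 16 * F.card * m ^ (K + 1) = 16 * (F.card * m ^ (K + 1)) := by ring
        _ ≤ 16 * (m * n.choose (K + 1) * m ^ n) := Nat.mul_le_mul_left _ h1
        _ = C * (16 * m * n.choose (K + 1)) := by rw [hCdef]; ring
        _ ≤ C * m ^ (K + 1) := Nat.mul_le_mul_left _ hnum.hKK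
    exact Nat.le_of_mul_le_mul_right h2 (by positivity)
  set 𝓜 := (Finset.powersetCard t (univ : Finset (V × V))).filter fun M => Valid M with h𝓜
  have hGc : ∀ M ∈ 𝓜, (G M).card * m ^ (2 * t) ≤ (m ^ 2).choose s * s ^ t * C := by
    intro M hM
    rw [h𝓜, mem_filter, Finset.mem_powersetCard] at hM
    have h1 := card_types_few (X := X) M hM.2 s (by rw [hX]; exact hnum.hsm)
    rw [hX, hV, hM.1.2] at h1
    exact h1
  have hGsum : 4 * ∑ M ∈ 𝓜, ((G M).card * (G M).card) ≤ C * C := by
    have h1 : ∀ M ∈ 𝓜, (G M).card * (G M).card * m ^ (4 * t) ≤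
        ((m ^ 2).choose s) ^ 2 * s ^ (2 * t) * (C * C) := by
      intro M hM
      have h2 := hGc M hM
      calc (G M).card * (G M).card * m ^ (4 * t)
          = ((G M).card * m ^ (2 * t)) * ((G M).card * m ^ (2 * t)) := by
            rw [show 4 * t = 2 * t + 2 * t by ring, pow_add]; ring
        _ ≤ ((m ^ 2).choose s * s ^ t * C) * ((m ^ 2).choose s * s ^ t * C) :=
            Nat.mul_le_mul h2 h2
        _ = _ := by rw [show 2 * t = t + t by ring, pow_add]; ring
    have h𝓜c : 𝓜.card ≤ (n ^ 2).choose t := by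
      refine (Finset.card_le_card (Finset.filter_subset _ _)).trans ?_
      rw [Finset.card_powersetCard, Finset.card_univ, Fintype.card_prod, hV, sq]
    have h3 : 4 * (∑ M ∈ 𝓜, ((G M).card * (G M).card)) * m ^ (4 * t) ≤
        (C * C) * m ^ (4 * t) := by
      calc 4 * (∑ M ∈ 𝓜, ((G M).card * (G M).card)) * m ^ (4 * t)
          = 4 * ∑ M ∈ 𝓜, ((G M).card * (G M).card * m ^ (4 * t)) := by
            rw [mul_assoc, Finset.sum_mul]
        _ ≤ 4 * ∑ M ∈ 𝓜, (((m ^ 2).choose s) ^ 2 * s ^ (2 * t) * (C * C)) :=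
            Nat.mul_le_mul_left _ (Finset.sum_le_sum h1)
        _ = 4 * (𝓜.card * (((m ^ 2).choose s) ^ 2 * s ^ (2 * t) * (C * C))) := by
            rw [Finset.sum_const, smul_eq_mul]
        _ ≤ 4 * ((n ^ 2).choose t * (((m ^ 2).choose s) ^ 2 * s ^ (2 * t) * (C * C))) :=
            Nat.mul_le_mul_left _ (Nat.mul_le_mul_right _ h𝓜c)
        _ = (C * C) * (4 * (n ^ 2).choose t * ((m ^ 2).choose s) ^ 2 * s ^ (2 * t)) := by ring
        _ ≤ (C * C) * m ^ (4 * t) := Nat.mul_le_mul_left _ hnum.hA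
    exact Nat.le_of_mul_le_mul_right h3 (by positivity)
  set bad : Finset ((V → X) × (V → X)) :=
    (F ×ˢ univ) ∪ (univ ×ˢ F) ∪ 𝓜.biUnion (fun M => G M ×ˢ G M) with hbad
  have hbadc : bad.card < C * C := by
    have h1 : bad.card ≤ F.card * C + C * F.card + ∑ M ∈ 𝓜, ((G M).card * (G M).card) := by
      rw [hbad]
      refine (Finset.card_union_le _ _).trans (Nat.add_le_add ?_ ?_)
      · refine (Finset.card_union_le _ _).trans (Nat.add_le_add (le_of_eq ?_) (le_of_eq ?_))
        · rw [Finset.card_product, Finset.card_univ, hC]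
        · rw [Finset.card_product, Finset.card_univ, hC]
      · refine Finset.card_biUnion_le.trans (Finset.sum_le_sum fun M _ => ?_)
        rw [Finset.card_product]
    have h2 : 0 < C * C := Nat.mul_pos hCpos hCpos
    have h3 : 16 * (F.card * C) ≤ C * C := by
      calc 16 * (F.card * C) = (16 * F.card) * C := by ring
        _ ≤ C * C := Nat.mul_le_mul_right _ hFc
    have h5 : C * F.card = F.card * C := mul_comm _ _
    rw [h5] at h1
    omega
  have hex : ∃ p : (V → X) × (V → X), p ∉ bad := by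
    by_contra hcon
    push Not at hcon
    have : bad = univ := Finset.eq_univ_of_forall hcon
    rw [this, Finset.card_univ, Fintype.card_prod, hC] at hbadc
    exact absurd hbadc (lt_irrefl _)
  obtain ⟨⟨τ₁, τ₂⟩, hp⟩ := hex
  simp only [hbad, mem_union, mem_product, mem_univ, and_true, true_and, not_or, mem_biUnion,
    not_exists, not_and] at hp
  obtain ⟨⟨h1, h2⟩, h3⟩ := hp
  refine ⟨τ₁, τ₂, ?_, ?_, ?_⟩
  · intro x
    by_contra hcon
    exact h1 (by rw [hF, mem_filter]; exact ⟨mem_univ _, x, not_le.1 hcon⟩)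
  · intro x
    by_contra hcon
    exact h2 (by rw [hF, mem_filter]; exact ⟨mem_univ _, x, not_le.1 hcon⟩)
  · intro M hM hMt
    by_contra hcon
    push Not at hcon
    refine h3 M ?_ ?_ ?_
    · rw [h𝓜, mem_filter, Finset.mem_powersetCard]
      exact ⟨⟨subset_univ _, hMt⟩, hM⟩
    · rw [hG, mem_filter]; exact ⟨mem_univ _, hcon.1⟩
    · rw [hG, mem_filter]; exact ⟨mem_univ _, hcon.2⟩

/-- The graph. -/
theorem exists_graph {n m s t K r ν a₀ : ℕ} {c θ : ℝ} (hnum : Num n m s t T K r ν a₀ c θ) :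
    ∃ H : SimpleGraph (Fin n), H.CliqueFree 3 ∧
      ∀ v w : Fin t → Fin n, Function.Injective (Sum.elim v w) →
        ∃ i j, H.Adj (v i) (v j) ∧ H.Adj (w i) (w j) := by
  classical
  obtain ⟨τ₁, τ₂, hK₁, hK₂, hsp⟩ := exists_types (V := Fin n) (X := Fin m) hnum
    (Fintype.card_fin n) (Fintype.card_fin m)
  obtain ⟨e₁, e₂, h⟩ := exists_seq hnum (Fintype.card_fin n) (Fintype.card_fin m) τ₁ τ₂ hK₁ hK₂ hsp
  refine ⟨gr τ₁ τ₂ e₁ e₂, gr_cliqueFree _ _ _ _, fun v w hvw => ?_⟩
  have hv : Function.Injective v := fun i j hij => by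
    have := @hvw (Sum.inl i) (Sum.inl j) hij
    simpa using this
  have hw : Function.Injective w := fun i j hij => by
    have := @hvw (Sum.inr i) (Sum.inr j) hij
    simpa using this
  have hne : ∀ i j, v i ≠ w j := fun i j hij => by
    have := @hvw (Sum.inl i) (Sum.inr j) hij
    simp at this
  set M : Finset (Fin n × Fin n) := univ.image fun i => (v i, w i) with hM
  have hMc : M.card = t := by
    rw [hM, Finset.card_image_of_injective, Finset.card_univ, Fintype.card_fin]
    intro i j hij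
    exact hv (congrArg Prod.fst hij)
  have hMv : Valid M := by
    rintro (⟨a, ha⟩ | ⟨a, ha⟩) (⟨b, hb⟩ | ⟨b, hb⟩) hab
    all_goals
      simp only [Sum.elim_inl, Sum.elim_inr] at hab
      rw [hM] at ha hb
      obtain ⟨i, -, rfl⟩ := mem_image.1 ha
      obtain ⟨j, -, rfl⟩ := mem_image.1 hb
    · simp only at hab
      have := hv hab
      subst this
      rfl
    · exact absurd hab (hne _ _)
    · exact absurd hab.symm (hne _ _)
    · simp only at hab
      have := hw hab
      subst this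
      rfl
  obtain ⟨a, ha, b, hb, h1, h2⟩ := h M hMv hMc
  rw [hM] at ha hb
  obtain ⟨i, -, rfl⟩ := mem_image.1 ha
  obtain ⟨j, -, rfl⟩ := mem_image.1 hb
  exact ⟨i, j, h1, h2⟩

end Pool.Agent.H.MP_4cad9a_co_h81
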