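import Pool.Agent.H.MP_4cad9a_co_h81.Main

set_option autoImplicit false
set_option linter.unusedSectionVars false

namespace Pool.Agent.H.MP_4cad9a_co_h81

open Finset

variable {V X : Type*} [Fintype V] [DecidableEq V] [Fintype X] [DecidableEq X] {T : ℕ}

open Classical in
/-- The families `M` of `t` disjoint pairs with at least `s` different `τ`-types. -/
noncomputable def fam (V : Type*) [Fintype V] [DecidableEq V] {X : Type*} [DecidableEq X]
    (t s : ℕ) (τ : V → X) : Finset (Finset (V × V)) :=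
  (Finset.powersetCard t (univ : Finset (V × V))).filter fun M =>
    Valid M ∧ s ≤ (M.image (ty τ)).card

/-- A chosen transversal. -/
noncomputable def tr (s : ℕ) (τ : V → X) (M : Finset (V × V)) : Finset (V × V) :=
  if h : s ≤ (M.image (ty τ)).card then (exists_transversal τ M s h).choose else ∅

lemma tr_spec {s : ℕ} {τ : V → X} {M : Finset (V × V)} (h : s ≤ (M.image (ty τ)).card) :
    tr s τ M ⊆ M ∧ (tr s τ M).card = s ∧
      ∀ a ∈ tr s τ M, ∀ b ∈ tr s τ M, ty τ a = ty τ b → a = b := by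
  unfold tr
  rw [dif_pos h]
  exact (exists_transversal τ M s h).choose_spec

open Classical in
/-- The sequences which are bad for some `M` in the family. -/
noncomputable def BadE (T t s r : ℕ) (τ τ' : V → X) (e' : Fin T → X × X) :
    Finset (Fin T → X × X) :=
  (fam V t s τ).biUnion fun M => badSeq (AA τ τ' e' (tr s τ M)) T r

/-- numerical conditions -/
structure Num (n m s t T K r ν a₀ : ℕ) (c θ : ℝ) : Prop where
  hT0 : 0 < T
  hm0 : 0 < m
  hs1 : 1 ≤ s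
  hsm : s ≤ m ^ 2
  hK0 : 0 < K
  hA : 4 * (n ^ 2).choose t * ((m ^ 2).choose s) ^ 2 * s ^ (2 * t) ≤ m ^ (4 * t)
  hKK : 16 * m * n.choose (K + 1) ≤ m ^ (K + 1)
  hN : 16 * (m ^ 5 + 4 * m ^ 3 * T ^ 2) ≤ ν * m ^ 4
  hD : 16 * T * (m ^ 5 + 4 * m ^ 3 * T ^ 2) ≤ r * m ^ 6
  hν : 4 * K ^ 2 * ν ≤ s ^ 2
  ha : 8 * m ^ 2 * a₀ ≤ s ^ 2
  hc0 : 0 < c
  hc1 : c ≤ 1
  hc : 16 * (K:ℝ) ^ 2 * (m:ℝ) ^ 2 * c ≤ (s:ℝ) ^ 2
  hθ : 1 ≤ θ
  hθ2 : 2 ≤ θ ^ a₀
  hB : 16 * (n:ℝ) ^ (2 * t) * (1 - c / 2) ^ T * θ ^ (m ^ 2) ≤ (c / 2) ^ r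

lemma card_BadE {n m s t K r ν a₀ : ℕ} {c θ : ℝ} (hnum : Num n m s t T K r ν a₀ c θ)
    (hV : Fintype.card V = n) (hX : Fintype.card X = m) (τ τ' : V → X)
    (hK : ∀ x, (univ.filter fun v => τ v = x).card ≤ K)
    (hK' : ∀ x, (univ.filter fun v => τ' v = x).card ≤ K) (e' : Fin T → X × X)
    (hν : Nn e' ≤ ν) :
    16 * (BadE T t s r τ τ' e').card ≤ Fintype.card (Fin T → X × X) := by
  classical
  have hN : Fintype.card (X × X) = m ^ 2 := by rw [Fintype.card_prod, hX, sq]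
  have hS : (Fintype.card (Fin T → X × X) : ℝ) = ((m:ℝ) ^ 2) ^ T := by
    rw [Fintype.card_fun, Fintype.card_fin, hN]; push_cast; ring
  have hy : 0 < c / 2 := by have := hnum.hc0; linarith
  have hy1 : c / 2 ≤ 1 := by have := hnum.hc1; linarith
  have h1 : ∀ M ∈ fam V t s τ, ((badSeq (AA τ τ' e' (tr s τ M)) T r).card : ℝ) * (c / 2) ^ r ≤
      ((m:ℝ) ^ 2 * (1 - c / 2)) ^ T * θ ^ (m ^ 2) := by
    intro M hM
    rw [fam, mem_filter] at hM
    obtain ⟨hM1, hM2, hM3⟩ := hM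
    obtain ⟨h2, h3, h4⟩ := tr_spec hM3
    have := card_badSeq_AA (T := T) hM2 h2 τ τ' h4 e' K ν r a₀ s c θ (c / 2) hnum.hK0 h3 hK hK' hν
      hnum.hν hnum.hθ hnum.hθ2 (by rw [hN]; exact hnum.ha)
      (by rw [hN]; have := hnum.hc; push_cast; exact this) hnum.hc1 hy.le hy1
    rw [hN] at this
    have h5 : (1 - c + c / 2) = 1 - c / 2 := by ring
    rw [h5] at this
    push_cast at this
    exact this
  have hfam : ((fam V t s τ).card : ℝ) ≤ (n:ℝ) ^ (2 * t) := by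
    have h2 : (fam V t s τ).card ≤ (n ^ 2).choose t := by
      refine (Finset.card_le_card (Finset.filter_subset _ _)).trans ?_
      rw [Finset.card_powersetCard, Finset.card_univ, Fintype.card_prod, hV, sq]
    have h3 : (n ^ 2).choose t ≤ n ^ (2 * t) := by
      rw [pow_mul]
      exact Nat.choose_le_pow _ _
    exact_mod_cast h2.trans h3
  have h2 : ((BadE T t s r τ τ' e').card : ℝ) * (c / 2) ^ r ≤
      (n:ℝ) ^ (2 * t) * (((m:ℝ) ^ 2 * (1 - c / 2)) ^ T * θ ^ (m ^ 2)) := by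
    have hc' : ((BadE T t s r τ τ' e').card : ℝ) ≤
        ∑ M ∈ fam V t s τ, ((badSeq (AA τ τ' e' (tr s τ M)) T r).card : ℝ) := by
      exact_mod_cast Finset.card_biUnion_le
    have hpos : 0 ≤ ((m:ℝ) ^ 2 * (1 - c / 2)) ^ T * θ ^ (m ^ 2) := by
      have := hnum.hθ
      have h6 : 0 ≤ 1 - c / 2 := by linarith
      positivity
    calc ((BadE T t s r τ τ' e').card : ℝ) * (c / 2) ^ r
        ≤ (∑ M ∈ fam V t s τ, ((badSeq (AA τ τ' e' (tr s τ M)) T r).card : ℝ)) * (c / 2) ^ r := by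
          gcongr
      _ = ∑ M ∈ fam V t s τ, ((badSeq (AA τ τ' e' (tr s τ M)) T r).card : ℝ) * (c / 2) ^ r := by
          rw [Finset.sum_mul]
      _ ≤ ∑ M ∈ fam V t s τ, ((m:ℝ) ^ 2 * (1 - c / 2)) ^ T * θ ^ (m ^ 2) :=
          Finset.sum_le_sum h1
      _ = ((fam V t s τ).card : ℝ) * (((m:ℝ) ^ 2 * (1 - c / 2)) ^ T * θ ^ (m ^ 2)) := by
          rw [Finset.sum_const, nsmul_eq_mul]
      _ ≤ _ := mul_le_mul_of_nonneg_right hfam hpos
  have h3 : (16 * ((BadE T t s r τ τ' e').card : ℝ)) * (c / 2) ^ r ≤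
      ((m:ℝ) ^ 2) ^ T * (c / 2) ^ r := by
    have hm : (0:ℝ) ≤ ((m:ℝ) ^ 2) ^ T := by positivity
    calc (16 * ((BadE T t s r τ τ' e').card : ℝ)) * (c / 2) ^ r
        = 16 * (((BadE T t s r τ τ' e').card : ℝ) * (c / 2) ^ r) := by ring
      _ ≤ 16 * ((n:ℝ) ^ (2 * t) * (((m:ℝ) ^ 2 * (1 - c / 2)) ^ T * θ ^ (m ^ 2))) := by gcongr
      _ = ((m:ℝ) ^ 2) ^ T * (16 * (n:ℝ) ^ (2 * t) * (1 - c / 2) ^ T * θ ^ (m ^ 2)) := by
          rw [mul_pow]; ring
      _ ≤ ((m:ℝ) ^ 2) ^ T * (c / 2) ^ r := mul_le_mul_of_nonneg_left hnum.hB hm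
  have h4 : 16 * ((BadE T t s r τ τ' e').card : ℝ) ≤ ((m:ℝ) ^ 2) ^ T :=
    le_of_mul_le_mul_right h3 (by positivity)
  rw [← hS] at h4
  exact_mod_cast h4

lemma card_Nn {n m s t K r ν a₀ : ℕ} {c θ : ℝ} (hnum : Num n m s t T K r ν a₀ c θ)
    (hX : Fintype.card X = m) :
    16 * (univ.filter fun e : Fin T → X × X => ν < Nn e).card ≤
      Fintype.card (Fin T → X × X) := by
  have hN : Fintype.card (X × X) = m ^ 2 := by rw [Fintype.card_prod, hX, sq]
  have hS : Fintype.card (Fin T → X × X) = (m ^ 2) ^ T := by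
    rw [Fintype.card_fun, Fintype.card_fin, hN]
  rw [hS]
  have h1 := markov (fun e : Fin T → X × X => Nn e) ν
  have h2 := sum_Nn (X := X) (T := T)
  rw [hN, hX] at h2
  set B := (univ.filter fun e : Fin T → X × X => ν < Nn e).card
  have h3 : (m * (m ^ 2) ^ 2 + 4 * m ^ 3 * T ^ 2) = m ^ 5 + 4 * m ^ 3 * T ^ 2 := by ring
  rw [h3] at h2
  have hpos : 0 < ν * m ^ 4 := by
    refine lt_of_lt_of_le ?_ hnum.hN
    have := hnum.hm0
    positivity
  have h4 : 16 * B * (ν * m ^ 4) ≤ (m ^ 2) ^ T * (ν * m ^ 4) := by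
    calc 16 * B * (ν * m ^ 4) = 16 * (B * ν * (m ^ 2) ^ 2) := by ring
      _ ≤ 16 * ((∑ e : Fin T → X × X, Nn e) * (m ^ 2) ^ 2) :=
          Nat.mul_le_mul_left _ (Nat.mul_le_mul_right _ h1)
      _ ≤ 16 * ((m ^ 5 + 4 * m ^ 3 * T ^ 2) * (m ^ 2) ^ T) := Nat.mul_le_mul_left _ h2
      _ = (m ^ 2) ^ T * (16 * (m ^ 5 + 4 * m ^ 3 * T ^ 2)) := by ring
      _ ≤ (m ^ 2) ^ T * (ν * m ^ 4) := Nat.mul_le_mul_left _ hnum.hN
  exact Nat.le_of_mul_le_mul_right h4 hpos

lemma card_Dest {n m s t K r ν a₀ : ℕ} {c θ : ℝ} (hnum : Num n m s t T K r ν a₀ c θ)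
    (hX : Fintype.card X = m) :
    16 * (univ.filter fun e : Fin T → X × X => r < (Dest e).card).card ≤
      Fintype.card (Fin T → X × X) := by
  have hN : Fintype.card (X × X) = m ^ 2 := by rw [Fintype.card_prod, hX, sq]
  have hS : Fintype.card (Fin T → X × X) = (m ^ 2) ^ T := by
    rw [Fintype.card_fun, Fintype.card_fin, hN]
  rw [hS]
  have h1 := markov (fun e : Fin T → X × X => (Dest e).card) r
  have h2 := sum_Dest (X := X) (T := T)
  rw [hN, hX] at h2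
  set B := (univ.filter fun e : Fin T → X × X => r < (Dest e).card).card
  have h3 : (m * (m ^ 2) ^ 2 + 4 * m ^ 3 * T ^ 2) = m ^ 5 + 4 * m ^ 3 * T ^ 2 := by ring
  rw [h3] at h2
  have hpos : 0 < r * m ^ 6 := by
    refine lt_of_lt_of_le ?_ hnum.hD
    have := hnum.hm0
    have := hnum.hT0
    positivity
  have h4 : 16 * B * (r * m ^ 6) ≤ (m ^ 2) ^ T * (r * m ^ 6) := by
    calc 16 * B * (r * m ^ 6) = 16 * (B * r * (m ^ 2) ^ 3) := by ring
      _ ≤ 16 * ((∑ e : Fin T → X × X, (Dest e).card) * (m ^ 2) ^ 3) :=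
          Nat.mul_le_mul_left _ (Nat.mul_le_mul_right _ h1)
      _ ≤ 16 * (T * (m ^ 5 + 4 * m ^ 3 * T ^ 2) * (m ^ 2) ^ T) := Nat.mul_le_mul_left _ h2
      _ = (m ^ 2) ^ T * (16 * T * (m ^ 5 + 4 * m ^ 3 * T ^ 2)) := by ring
      _ ≤ (m ^ 2) ^ T * (r * m ^ 6) := Nat.mul_le_mul_left _ hnum.hD
  exact Nat.le_of_mul_le_mul_right h4 hpos

/-- Existence of the two edge sequences. -/
theorem exists_seq {n m s t K r ν a₀ : ℕ} {c θ : ℝ} (hnum : Num n m s t T K r ν a₀ c θ)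
    (hV : Fintype.card V = n) (hX : Fintype.card X = m) (τ₁ τ₂ : V → X)
    (hK₁ : ∀ x, (univ.filter fun v => τ₁ v = x).card ≤ K)
    (hK₂ : ∀ x, (univ.filter fun v => τ₂ v = x).card ≤ K)
    (hsp : ∀ M : Finset (V × V), Valid M → M.card = t →
      s ≤ (M.image (ty τ₁)).card ∨ s ≤ (M.image (ty τ₂)).card) :
    ∃ e₁ e₂ : Fin T → X × X, ∀ M : Finset (V × V), Valid M → M.card = t →
      ∃ a ∈ M, ∃ b ∈ M, (gr τ₁ τ₂ e₁ e₂).Adj a.1 b.1 ∧ (gr τ₁ τ₂ e₁ e₂).Adj a.2 b.2 := by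
  classical
  set S := Fintype.card (Fin T → X × X) with hSdef
  have hSpos : 0 < S := by
    have : Nonempty (X × X) := by
      have hm := hnum.hm0
      rw [← hX] at hm
      have := Fintype.card_pos_iff.1 hm
      infer_instance
    exact Fintype.card_pos
  set D := univ.filter fun e : Fin T → X × X => r < (Dest e).card with hD
  set N := univ.filter fun e : Fin T → X × X => ν < Nn e with hN
  have hDc : 16 * D.card ≤ S := card_Dest hnum hX
  have hNc : 16 * N.card ≤ S := card_Nn hnum hX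
  -- the bad pairs of sequences
  set B1 : Finset ((Fin T → X × X) × (Fin T → X × X)) :=
    univ.filter fun p => p.2 ∉ N ∧ p.1 ∈ BadE T t s r τ₁ τ₂ p.2 with hB1
  set B2 : Finset ((Fin T → X × X) × (Fin T → X × X)) :=
    univ.filter fun p => p.1 ∉ N ∧ p.2 ∈ BadE T t s r τ₂ τ₁ p.1 with hB2
  have hB1c : 16 * B1.card ≤ S * S := by
    have h1 : B1.card ≤ ∑ e₂ : Fin T → X × X,
        (if e₂ ∉ N then (BadE T t s r τ₁ τ₂ e₂).card else 0) := by
      rw [hB1, Finset.card_filter, Fintype.sum_prod_type_right]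
      refine Finset.sum_le_sum fun e₂ _ => ?_
      by_cases h : e₂ ∉ N
      · rw [if_pos h, ← Finset.card_filter]
        refine Finset.card_le_card ?_
        intro e he
        simp only [mem_filter, mem_univ, true_and] at he
        exact he.2
      · rw [if_neg h]
        refine le_of_eq (Finset.sum_eq_zero fun e _ => ?_)
        rw [if_neg]
        intro h'
        exact h h'.1
    calc 16 * B1.card ≤ 16 * ∑ e₂ : Fin T → X × X,
        (if e₂ ∉ N then (BadE T t s r τ₁ τ₂ e₂).card else 0) := Nat.mul_le_mul_left _ h1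
      _ = ∑ e₂ : Fin T → X × X,
        16 * (if e₂ ∉ N then (BadE T t s r τ₁ τ₂ e₂).card else 0) := by rw [Finset.mul_sum]
      _ ≤ ∑ _e₂ : Fin T → X × X, S := by
          refine Finset.sum_le_sum fun e₂ _ => ?_
          by_cases h : e₂ ∉ N
          · rw [if_pos h]
            refine card_BadE hnum hV hX τ₁ τ₂ hK₁ hK₂ e₂ ?_
            by_contra hcon
            exact h (by rw [hN, mem_filter]; exact ⟨mem_univ _, not_le.1 hcon⟩)
          · rw [if_neg h]; simp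
      _ = S * S := by rw [Finset.sum_const, Finset.card_univ, smul_eq_mul]
  have hB2c : 16 * B2.card ≤ S * S := by
    have h1 : B2.card ≤ ∑ e₁ : Fin T → X × X,
        (if e₁ ∉ N then (BadE T t s r τ₂ τ₁ e₁).card else 0) := by
      rw [hB2, Finset.card_filter, Fintype.sum_prod_type]
      refine Finset.sum_le_sum fun e₁ _ => ?_
      by_cases h : e₁ ∉ N
      · rw [if_pos h, ← Finset.card_filter]
        refine Finset.card_le_card ?_
        intro e he
        simp only [mem_filter, mem_univ, true_and] at he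
        exact he.2
      · rw [if_neg h]
        refine le_of_eq (Finset.sum_eq_zero fun e _ => ?_)
        rw [if_neg]
        intro h'
        exact h h'.1
    calc 16 * B2.card ≤ 16 * ∑ e₁ : Fin T → X × X,
        (if e₁ ∉ N then (BadE T t s r τ₂ τ₁ e₁).card else 0) := Nat.mul_le_mul_left _ h1
      _ = ∑ e₁ : Fin T → X × X,
        16 * (if e₁ ∉ N then (BadE T t s r τ₂ τ₁ e₁).card else 0) := by rw [Finset.mul_sum]
      _ ≤ ∑ _e₁ : Fin T → X × X, S := by
          refine Finset.sum_le_sum fun e₁ _ => ?_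
          by_cases h : e₁ ∉ N
          · rw [if_pos h]
            refine card_BadE hnum hV hX τ₂ τ₁ hK₂ hK₁ e₁ ?_
            by_contra hcon
            exact h (by rw [hN, mem_filter]; exact ⟨mem_univ _, not_le.1 hcon⟩)
          · rw [if_neg h]; simp
      _ = S * S := by rw [Finset.sum_const, Finset.card_univ, smul_eq_mul]
  -- a pair outside all bad sets
  set bad : Finset ((Fin T → X × X) × (Fin T → X × X)) :=
    (D ×ˢ univ) ∪ (univ ×ˢ D) ∪ (N ×ˢ univ) ∪ (univ ×ˢ N) ∪ B1 ∪ B2 with hbad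
  have hbadc : bad.card < S * S := by
    have h1 : bad.card ≤ D.card * S + S * D.card + N.card * S + S * N.card + B1.card + B2.card := by
      rw [hbad]
      refine (Finset.card_union_le _ _).trans (Nat.add_le_add_right ?_ _)
      refine (Finset.card_union_le _ _).trans (Nat.add_le_add_right ?_ _)
      refine (Finset.card_union_le _ _).trans (Nat.add_le_add ?_ (le_of_eq ?_))
      · refine (Finset.card_union_le _ _).trans (Nat.add_le_add ?_ (le_of_eq ?_))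
        · refine (Finset.card_union_le _ _).trans (Nat.add_le_add (le_of_eq ?_) (le_of_eq ?_))
          · rw [Finset.card_product, Finset.card_univ]
          · rw [Finset.card_product, Finset.card_univ]
        · rw [Finset.card_product, Finset.card_univ]
      · rw [Finset.card_product, Finset.card_univ]
    have h2 : 0 < S * S := Nat.mul_pos hSpos hSpos
    have h3 : 16 * (D.card * S) ≤ S * S := by
      calc 16 * (D.card * S) = (16 * D.card) * S := by ring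
        _ ≤ S * S := Nat.mul_le_mul_right _ hDc
    have h4 : 16 * (N.card * S) ≤ S * S := by
      calc 16 * (N.card * S) = (16 * N.card) * S := by ring
        _ ≤ S * S := Nat.mul_le_mul_right _ hNc
    have h5 : S * D.card = D.card * S := mul_comm _ _
    have h6 : S * N.card = N.card * S := mul_comm _ _
    rw [h5, h6] at h1
    omega
  have hex : ∃ p : (Fin T → X × X) × (Fin T → X × X), p ∉ bad := by
    by_contra hcon
    push Not at hcon
    have : bad = univ := Finset.eq_univ_of_forall hcon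
    rw [this, Finset.card_univ, Fintype.card_prod] at hbadc
    exact absurd hbadc (lt_irrefl _)
  obtain ⟨⟨e₁, e₂⟩, hp⟩ := hex
  simp only [hbad, mem_union, mem_product, mem_univ, and_true, true_and, not_or] at hp
  obtain ⟨⟨⟨⟨⟨hD1, hD2⟩, hN1⟩, hN2⟩, hb1⟩, hb2⟩ := hp
  rw [hB1, mem_filter] at hb1
  rw [hB2, mem_filter] at hb2
  have hb1' : e₁ ∉ BadE T t s r τ₁ τ₂ e₂ := fun h => hb1 ⟨mem_univ _, hN2, h⟩
  have hb2' : e₂ ∉ BadE T t s r τ₂ τ₁ e₁ := fun h => hb2 ⟨mem_univ _, hN1, h⟩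
  have hd1 : (Dest e₁).card ≤ r := by
    by_contra hcon
    exact hD1 (by rw [hD, mem_filter]; exact ⟨mem_univ _, not_le.1 hcon⟩)
  have hd2 : (Dest e₂).card ≤ r := by
    by_contra hcon
    exact hD2 (by rw [hD, mem_filter]; exact ⟨mem_univ _, not_le.1 hcon⟩)
  refine ⟨e₁, e₂, fun M hM hMt => ?_⟩
  rcases hsp M hM hMt with h | h
  · have hMf : M ∈ fam V t s τ₁ := by
      rw [fam, mem_filter]
      exact ⟨Finset.mem_powersetCard.2 ⟨subset_univ _, hMt⟩, hM, h⟩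
    have hnb : e₁ ∉ badSeq (AA τ₁ τ₂ e₂ (tr s τ₁ M)) T r := fun h' =>
      hb1' (by rw [BadE, mem_biUnion]; exact ⟨M, hMf, h'⟩)
    obtain ⟨a, ha, b, hb, ⟨h1, h2, h3⟩, h4, h5, h6⟩ := hit (tr_spec h).1 τ₁ τ₂ e₁ e₂ r hnb hd1
    exact ⟨a, ha, b, hb, ⟨Or.inl h1, h2, h3⟩, ⟨Or.inl h4, h5, h6⟩⟩
  · have hMf : M ∈ fam V t s τ₂ := by
      rw [fam, mem_filter]
      exact ⟨Finset.mem_powersetCard.2 ⟨subset_univ _, hMt⟩, hM, h⟩
    have hnb : e₂ ∉ badSeq (AA τ₂ τ₁ e₁ (tr s τ₂ M)) T r := fun h' =>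
      hb2' (by rw [BadE, mem_biUnion]; exact ⟨M, hMf, h'⟩)
    obtain ⟨a, ha, b, hb, ⟨h1, h2, h3⟩, h4, h5, h6⟩ := hit (tr_spec h).1 τ₂ τ₁ e₂ e₁ r hnb hd2
    exact ⟨a, ha, b, hb, ⟨Or.inr h1, h3, h2⟩, ⟨Or.inr h4, h6, h5⟩⟩

end Pool.Agent.H.MP_4cad9a_co_h81
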