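import Pool.Agent.H.MP_4cad9a_co_h81.Count

set_option autoImplicit false
set_option linter.unusedSectionVars false

namespace Pool.Agent.H.MP_4cad9a_co_h81

open Finset

variable {V X : Type*} {T : ℕ}

/-- Adjacency in the graph whose edges are the entries of the sequence `e`. -/
def adj (e : Fin T → X × X) (x y : X) : Prop := x ≠ y ∧ ∃ l, e l = (x, y) ∨ e l = (y, x)

lemma adj_symm {e : Fin T → X × X} {x y : X} (h : adj e x y) : adj e y x :=
  ⟨h.1.symm, h.2.imp fun _ h => h.symm⟩

/-- equal, or with a common neighbour -/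
def Non (e : Fin T → X × X) (x y : X) : Prop := x = y ∨ ∃ z, adj e x z ∧ adj e z y

lemma Non.symm {e : Fin T → X × X} {x y : X} (h : Non e x y) : Non e y x := by
  rcases h with rfl | ⟨z, h1, h2⟩
  · exact Or.inl rfl
  · exact Or.inr ⟨z, adj_symm h2, adj_symm h1⟩

/-- The superposition of two blow-ups. -/
def gr (τ₁ τ₂ : V → X) (e₁ e₂ : Fin T → X × X) : SimpleGraph V where
  Adj u v := (adj e₁ (τ₁ u) (τ₁ v) ∨ adj e₂ (τ₂ u) (τ₂ v)) ∧
    ¬ Non e₁ (τ₁ u) (τ₁ v) ∧ ¬ Non e₂ (τ₂ u) (τ₂ v)
  symm := ⟨by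
    rintro u v ⟨h1, h2, h3⟩
    exact ⟨h1.imp adj_symm adj_symm, fun h => h2 h.symm, fun h => h3 h.symm⟩⟩
  loopless := ⟨by
    rintro u ⟨-, h2, -⟩
    exact h2 (Or.inl rfl)⟩

lemma gr_cliqueFree (τ₁ τ₂ : V → X) (e₁ e₂ : Fin T → X × X) :
    (gr τ₁ τ₂ e₁ e₂).CliqueFree 3 := by
  classical
  intro s hs
  obtain ⟨a, b, c, hab, hac, hbc, -⟩ := SimpleGraph.is3Clique_iff.1 hs
  obtain ⟨h1, h2, h3⟩ := hab
  obtain ⟨k1, k2, k3⟩ := hac
  obtain ⟨m1, m2, m3⟩ := hbc
  rcases h1 with h1 | h1 <;> rcases k1 with k1 | k1 <;> rcases m1 with m1 | m1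
  · exact m2 (Or.inr ⟨_, adj_symm h1, k1⟩)
  · exact m2 (Or.inr ⟨_, adj_symm h1, k1⟩)
  · exact k2 (Or.inr ⟨_, h1, m1⟩)
  · exact h3 (Or.inr ⟨_, k1, adj_symm m1⟩)
  · exact h2 (Or.inr ⟨_, k1, adj_symm m1⟩)
  · exact k3 (Or.inr ⟨_, h1, m1⟩)
  · exact m3 (Or.inr ⟨_, adj_symm h1, k1⟩)
  · exact m3 (Or.inr ⟨_, adj_symm h1, k1⟩)

section

variable [Fintype X] [DecidableEq X]

/-- A set of sequences covered by `|P|` cylinders is small. -/
lemma card_le_of_cover {P ι Y : Type*} [Fintype P] [Fintype ι] [Fintype Y] [DecidableEq Y]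
    (S : Finset (Fin T → Y)) (f : P → ι → Fin T) (c : P → ι → Y)
    (h : ∀ e ∈ S, ∃ q : P, Function.Injective (f q) ∧ ∀ i, e (f q i) = c q i) :
    S.card * Fintype.card Y ^ Fintype.card ι ≤ Fintype.card P * Fintype.card Y ^ T := by
  classical
  have hsub : S ⊆ (univ.filter fun q : P => Function.Injective (f q)).biUnion fun q =>
      univ.filter fun e : Fin T → Y => ∀ i, e (f q i) = c q i := by
    intro e he
    obtain ⟨q, hq1, hq2⟩ := h e he
    simp only [mem_biUnion, mem_filter, mem_univ, true_and]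
    exact ⟨q, hq1, hq2⟩
  have hcard := (Finset.card_le_card hsub).trans Finset.card_biUnion_le
  calc _ ≤ (∑ q ∈ univ.filter fun q : P => Function.Injective (f q),
        (univ.filter fun e : Fin T → Y => ∀ i, e (f q i) = c q i).card)
        * Fintype.card Y ^ Fintype.card ι := Nat.mul_le_mul_right _ hcard
    _ = ∑ q ∈ univ.filter fun q : P => Function.Injective (f q), Fintype.card Y ^ T := by
        rw [Finset.sum_mul]
        refine Finset.sum_congr rfl fun q hq => ?_
        have := card_cylinder (f q) (mem_filter.1 hq).2 (c q)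
        rw [Fintype.card_fin] at this
        exact this
    _ ≤ ∑ _q : P, Fintype.card Y ^ T := Finset.sum_le_sum_of_subset (Finset.filter_subset _ _)
    _ = _ := by rw [Finset.sum_const, Finset.card_univ, smul_eq_mul]

/-- orient a pair -/
def dir (s : Bool) (x y : X) : X × X := if s then (x, y) else (y, x)

lemma adj_iff_dir {e : Fin T → X × X} {x y : X} :
    adj e x y ↔ x ≠ y ∧ ∃ l s, e l = dir s x y := by
  unfold adj dir
  constructor
  · rintro ⟨h, l, hl | hl⟩
    · exact ⟨h, l, true, by simpa using hl⟩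
    · exact ⟨h, l, false, by simpa using hl⟩
  · rintro ⟨h, l, s, hl⟩
    refine ⟨h, l, ?_⟩
    cases s
    · right; simpa using hl
    · left; simpa using hl

lemma dir_eq_dir {s s' : Bool} {x y x' y' : X} (h : dir s x y = dir s' x' y') :
    (x = x' ∧ y = y') ∨ (x = y' ∧ y = x') := by
  unfold dir at h
  cases s <;> cases s' <;> simp only [if_true, if_false, Prod.mk.injEq, Bool.false_eq_true] at h
  · exact Or.inl ⟨h.2, h.1⟩
  · exact Or.inr ⟨h.2, h.1⟩
  · exact Or.inr ⟨h.1, h.2⟩
  · exact Or.inl ⟨h.1, h.2⟩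

open Classical in
lemma card_path (x y : X) (hxy : x ≠ y) :
    (univ.filter fun e : Fin T → X × X => ∃ z, adj e x z ∧ adj e z y).card *
      Fintype.card (X × X) ^ 2 ≤ 4 * Fintype.card X * T ^ 2 * Fintype.card (X × X) ^ T := by
  have h := card_le_of_cover (T := T) (P := X × Fin T × Fin T × Bool × Bool) (ι := Fin 2)
    (univ.filter fun e : Fin T → X × X => ∃ z, adj e x z ∧ adj e z y)
    (fun q => ![q.2.1, q.2.2.1]) (fun q => ![dir q.2.2.2.1 x q.1, dir q.2.2.2.2 q.1 y]) (by
      intro e he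
      simp only [mem_filter, mem_univ, true_and] at he
      obtain ⟨z, h1, h2⟩ := he
      rw [adj_iff_dir] at h1 h2
      obtain ⟨hxz, l, s, hl⟩ := h1
      obtain ⟨hzy, l', s', hl'⟩ := h2
      refine ⟨(z, l, l', s, s'), ?_, ?_⟩
      · have hne : l ≠ l' := by
          rintro rfl
          rw [hl] at hl'
          rcases dir_eq_dir hl' with ⟨h3, h4⟩ | ⟨h3, h4⟩
          · exact hxz h3
          · exact hxy h3
        intro i j hij
        fin_cases i <;> fin_cases j <;> simp at hij ⊢
        · exact hne hij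
        · exact hne hij.symm
      · intro i
        fin_cases i
        · simpa using hl
        · simpa using hl')
  rw [Fintype.card_fin] at h
  refine h.trans (le_of_eq ?_)
  simp only [Fintype.card_prod, Fintype.card_fin, Fintype.card_bool]
  ring

open Classical in
lemma card_path3 (l₀ : Fin T) :
    (univ.filter fun e : Fin T → X × X =>
      (e l₀).1 ≠ (e l₀).2 ∧ ∃ z, adj e (e l₀).1 z ∧ adj e z (e l₀).2).card *
      Fintype.card (X × X) ^ 3 ≤ 4 * Fintype.card X ^ 3 * T ^ 2 * Fintype.card (X × X) ^ T := by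
  have h := card_le_of_cover (T := T) (P := (X × X) × X × Fin T × Fin T × Bool × Bool) (ι := Fin 3)
    (univ.filter fun e : Fin T → X × X =>
      (e l₀).1 ≠ (e l₀).2 ∧ ∃ z, adj e (e l₀).1 z ∧ adj e z (e l₀).2)
    (fun q => ![l₀, q.2.2.1, q.2.2.2.1])
    (fun q => ![q.1, dir q.2.2.2.2.1 q.1.1 q.2.1, dir q.2.2.2.2.2 q.2.1 q.1.2]) (by
      intro e he
      simp only [mem_filter, mem_univ, true_and] at he
      obtain ⟨hxy, z, h1, h2⟩ := he
      rw [adj_iff_dir] at h1 h2
      obtain ⟨hxz, l, s, hl⟩ := h1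
      obtain ⟨hzy, l', s', hl'⟩ := h2
      refine ⟨(e l₀, z, l, l', s, s'), ?_, ?_⟩
      · have hne : l ≠ l' := by
          rintro rfl
          rw [hl] at hl'
          rcases dir_eq_dir hl' with ⟨h3, h4⟩ | ⟨h3, h4⟩
          · exact hxz h3
          · exact hxy h3
        have hne1 : l₀ ≠ l := by
          rintro rfl
          have h5 : dir true (e l₀).1 (e l₀).2 = dir s (e l₀).1 z := by
            rw [← hl]; rfl
          rcases dir_eq_dir h5 with ⟨h3, h4⟩ | ⟨h3, h4⟩
          · exact hzy h4.symm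
          · exact hxz h3
        have hne2 : l₀ ≠ l' := by
          rintro rfl
          have h5 : dir true (e l₀).1 (e l₀).2 = dir s' z (e l₀).2 := by
            rw [← hl']; rfl
          rcases dir_eq_dir h5 with ⟨h3, h4⟩ | ⟨h3, h4⟩
          · exact hxz h3
          · exact hxy h3
        intro i j hij
        fin_cases i <;> fin_cases j <;> simp at hij ⊢
        · exact hne1 hij
        · exact hne2 hij
        · exact hne1 hij.symm
        · exact hne hij
        · exact hne2 hij.symm
        · exact hne hij.symm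
      · intro i
        fin_cases i
        · rfl
        · simpa using hl
        · simpa using hl')
  rw [Fintype.card_fin] at h
  refine h.trans (le_of_eq ?_)
  simp only [Fintype.card_prod, Fintype.card_fin, Fintype.card_bool]
  ring

open Classical in
lemma card_loop (l₀ : Fin T) :
    (univ.filter fun e : Fin T → X × X => (e l₀).1 = (e l₀).2).card *
      Fintype.card (X × X) ≤ Fintype.card X * Fintype.card (X × X) ^ T := by
  have h := card_le_of_cover (T := T) (P := X) (ι := Unit)
    (univ.filter fun e : Fin T → X × X => (e l₀).1 = (e l₀).2)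
    (fun _ _ => l₀) (fun q _ => (q, q)) (by
      intro e he
      simp only [mem_filter, mem_univ, true_and] at he
      refine ⟨(e l₀).1, Function.injective_of_subsingleton _, fun _ => ?_⟩
      exact Prod.ext rfl he.symm)
  simpa using h

end

end Pool.Agent.H.MP_4cad9a_co_h81
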