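import Mathlib

set_option autoImplicit false

namespace Pool.Agent.H.MP_4cad9a_co_h81

set_option linter.unusedSectionVars false

open Finset

variable {Y : Type*} [Fintype Y] [DecidableEq Y]

/-- A marked sequence whose unmarked entries avoid `C` and the neighbourhoods of the earlier
unmarked entries. -/
def Ind (A : Y → Finset Y) : (T : ℕ) → Finset Y → (Fin T → Y × Bool) → Prop
  | 0, _, _ => True
  | T + 1, C, L => if (L 0).2 = true then Ind A T C (Fin.tail L) else
      (L 0).1 ∉ C ∧ Ind A T (C ∪ A (L 0).1) (Fin.tail L)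

lemma ind_of (A : Y → Finset Y) : ∀ (T : ℕ) (C : Finset Y) (L : Fin T → Y × Bool),
    (∀ l, (L l).2 = false → (L l).1 ∉ C) →
    (∀ l l', (L l).2 = false → (L l').2 = false → l' < l → (L l).1 ∉ A (L l').1) →
    Ind A T C L := by
  intro T
  induction T with
  | zero => intro C L _ _; trivial
  | succ T ih =>
    intro C L h1 h2
    unfold Ind
    split_ifs with h0
    · refine ih C _ ?_ ?_
      · intro l hl; exact h1 l.succ hl
      · intro l l' hl hl' hlt
        exact h2 l.succ l'.succ hl hl' (Fin.succ_lt_succ_iff.2 hlt)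
    · have h0' : (L 0).2 = false := by simpa using h0
      refine ⟨h1 0 h0', ih _ _ ?_ ?_⟩
      · intro l hl
        rw [Finset.mem_union, not_or]
        exact ⟨h1 l.succ hl, h2 l.succ 0 hl h0' (Fin.succ_pos l)⟩
      · intro l l' hl hl' hlt
        exact h2 l.succ l'.succ hl hl' (Fin.succ_lt_succ_iff.2 hlt)

open Classical in
/-- Weighted number of independent marked sequences. -/
noncomputable def W (A : Y → Finset Y) (y : ℝ) (T : ℕ) (C : Finset Y) : ℝ :=
  ∑ L : Fin T → Y × Bool, if Ind A T C L then ∏ l, (if (L l).2 = true then y else 1) else 0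

lemma W_zero (A : Y → Finset Y) (y : ℝ) (C : Finset Y) : W A y 0 C = 1 := by
  classical
  unfold W
  simp [Ind]

lemma W_succ (A : Y → Finset Y) (y : ℝ) (T : ℕ) (C : Finset Y) :
    W A y (T + 1) C = ∑ _e : Y, y * W A y T C + ∑ e ∈ Cᶜ, W A y T (C ∪ A e) := by
  classical
  have h1 : W A y (T + 1) C = ∑ q : (Y × Bool) × (Fin T → Y × Bool),
      if Ind A (T + 1) C (Fin.cons q.1 q.2) then
        ∏ l, (if ((Fin.cons q.1 q.2 : Fin (T + 1) → Y × Bool) l).2 = true then y else 1) else 0 := by
    unfold W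
    exact (Fintype.sum_equiv (Fin.consEquiv (fun _ : Fin (T + 1) => Y × Bool)) _ _
      (fun q => rfl)).symm
  rw [h1, Fintype.sum_prod_type, Fintype.sum_prod_type]
  have h2 : ∀ e : Y, ∑ b : Bool, ∑ L : Fin T → Y × Bool,
      (if Ind A (T + 1) C (Fin.cons (e, b) L) then
        ∏ l, (if ((Fin.cons (e, b) L : Fin (T + 1) → Y × Bool) l).2 = true then y else 1) else 0)
      = y * W A y T C + (if e ∈ Cᶜ then W A y T (C ∪ A e) else 0) := by
    intro e
    rw [Fintype.sum_bool]
    congr 1
    · unfold W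
      rw [Finset.mul_sum]
      refine Finset.sum_congr rfl fun L _ => ?_
      rw [Fin.prod_univ_succ]
      simp only [Ind, Fin.cons_zero, if_true, Fin.tail_cons, Fin.cons_succ]
      split_ifs <;> simp
    · by_cases he : e ∈ C
      · have he' : e ∉ Cᶜ := by simpa using he
        rw [if_neg he']
        refine Finset.sum_eq_zero fun L _ => ?_
        rw [if_neg]
        simp [Ind, he]
      · have he' : e ∈ Cᶜ := by simpa using he
        rw [if_pos he']
        unfold W
        refine Finset.sum_congr rfl fun L _ => ?_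
        rw [Fin.prod_univ_succ]
        simp [Ind, he]
  rw [Finset.sum_congr rfl fun e _ => h2 e, Finset.sum_add_distrib, Finset.sum_ite_mem,
    Finset.univ_inter]

lemma W_le (A : Y → Finset Y) (y c θ : ℝ) (hy : 0 ≤ y) (hc : c ≤ 1) (hθ : 1 ≤ θ)
    (hstep : ∀ C : Finset Y, ∑ e ∈ Cᶜ, θ ^ ((C ∪ A e)ᶜ).card
      ≤ (1 - c) * Fintype.card Y * θ ^ (Cᶜ).card) :
    ∀ (T : ℕ) (C : Finset Y),
      W A y T C ≤ (Fintype.card Y * (1 - c + y)) ^ T * θ ^ (Cᶜ).card := by
  intro T
  induction T with
  | zero =>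
    intro C
    rw [W_zero, pow_zero, one_mul]
    exact one_le_pow₀ hθ
  | succ T ih =>
    intro C
    rw [W_succ, Finset.sum_const, Finset.card_univ, nsmul_eq_mul]
    have hK : (0:ℝ) ≤ (Fintype.card Y * (1 - c + y)) ^ T :=
      pow_nonneg (mul_nonneg (Nat.cast_nonneg _) (by linarith)) _
    have h1 : (Fintype.card Y : ℝ) * (y * W A y T C) ≤ Fintype.card Y * (y *
        ((Fintype.card Y * (1 - c + y)) ^ T * θ ^ (Cᶜ).card)) := by
      gcongr
      exact ih C
    have h2 : ∑ e ∈ Cᶜ, W A y T (C ∪ A e) ≤ (Fintype.card Y * (1 - c + y)) ^ T *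
        ((1 - c) * Fintype.card Y * θ ^ (Cᶜ).card) := by
      calc ∑ e ∈ Cᶜ, W A y T (C ∪ A e)
          ≤ ∑ e ∈ Cᶜ, (Fintype.card Y * (1 - c + y)) ^ T * θ ^ ((C ∪ A e)ᶜ).card :=
            Finset.sum_le_sum fun e _ => ih _
        _ = (Fintype.card Y * (1 - c + y)) ^ T * ∑ e ∈ Cᶜ, θ ^ ((C ∪ A e)ᶜ).card := by
            rw [Finset.mul_sum]
        _ ≤ _ := mul_le_mul_of_nonneg_left (hstep C) hK
    calc _ ≤ Fintype.card Y * (y *
        ((Fintype.card Y * (1 - c + y)) ^ T * θ ^ (Cᶜ).card)) +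
        (Fintype.card Y * (1 - c + y)) ^ T *
        ((1 - c) * Fintype.card Y * θ ^ (Cᶜ).card) := add_le_add h1 h2
      _ = _ := by ring

open Classical in
/-- Sequences all of whose entries, off a set of at most `r` indices, are independent. -/
noncomputable def badSeq (A : Y → Finset Y) (T r : ℕ) : Finset (Fin T → Y) :=
  univ.filter fun L => ∃ R : Finset (Fin T), R.card ≤ r ∧
    ∀ l, l ∉ R → ∀ l', l' ∉ R → l' < l → L l ∉ A (L l')

lemma card_badSeq_le (A : Y → Finset Y) (T r : ℕ) (y : ℝ) (hy : 0 ≤ y) (hy1 : y ≤ 1) :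
    ((badSeq A T r).card : ℝ) * y ^ r ≤ W A y T ∅ := by
  classical
  have hR : ∀ L : Fin T → Y, ∃ R : Finset (Fin T), L ∈ badSeq A T r → (R.card ≤ r ∧
    ∀ l, l ∉ R → ∀ l', l' ∉ R → l' < l → L l ∉ A (L l')) := by
    intro L
    by_cases h : L ∈ badSeq A T r
    · have h' := h
      rw [badSeq, mem_filter] at h'
      obtain ⟨R, hR⟩ := h'.2
      exact ⟨R, fun _ => hR⟩
    · exact ⟨∅, fun h' => absurd h' h⟩
  choose R hR using hR
  have hwt : ∀ L : Fin T → Y, ∏ l, (if decide (l ∈ R L) = true then y else 1)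
      = y ^ (R L).card := by
    intro L
    simp only [decide_eq_true_eq]
    rw [Finset.prod_ite_mem, Finset.univ_inter, Finset.prod_const]
  calc ((badSeq A T r).card : ℝ) * y ^ r = ∑ L ∈ badSeq A T r, y ^ r := by
        rw [Finset.sum_const, nsmul_eq_mul]
    _ ≤ ∑ L ∈ badSeq A T r, (if Ind A T ∅ (fun l => (L l, decide (l ∈ R L))) then
        ∏ l, (if ((L l, decide (l ∈ R L)) : Y × Bool).2 = true then y else 1) else 0) := by
        refine Finset.sum_le_sum fun L hL => ?_
        obtain ⟨h1, h2⟩ := hR L hL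
        rw [if_pos]
        · simp only []
          rw [hwt]
          exact pow_le_pow_of_le_one hy hy1 h1
        · refine ind_of A T ∅ _ (fun l _ => by simp) ?_
          intro l l' hl hl' hlt
          simp only [decide_eq_false_iff_not] at hl hl'
          exact h2 l hl l' hl' hlt
    _ = ∑ L' ∈ (badSeq A T r).image (fun L l => (L l, decide (l ∈ R L))),
        (if Ind A T ∅ L' then ∏ l, (if (L' l).2 = true then y else 1) else 0) := by
        rw [Finset.sum_image]
        intro L _ L' _ h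
        ext l
        have := congrFun h l
        exact congrArg Prod.fst this
    _ ≤ W A y T ∅ := by
        unfold W
        refine Finset.sum_le_sum_of_subset_of_nonneg (subset_univ _) ?_
        intro L' _ _
        split_ifs
        · exact Finset.prod_nonneg fun l _ => by split_ifs <;> [exact hy; exact zero_le_one]
        · exact le_rfl

/-- The one-step estimate. -/
lemma step_bound (A : Y → Finset Y) (α Δ a₀ : ℕ) (c θ : ℝ) (hΔ0 : 0 < Δ)
    (hα : α ≤ ∑ e, (A e).card) (hrow : ∀ e, (A e).card ≤ Δ)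
    (hcol : ∀ y', (univ.filter fun e => y' ∈ A e).card ≤ Δ)
    (hθ : 1 ≤ θ) (hθ2 : 2 ≤ θ ^ a₀) (ha : 4 * Fintype.card Y * a₀ ≤ α)
    (hc : 8 * Δ * Fintype.card Y * c ≤ α) (C : Finset Y) :
    ∑ e ∈ Cᶜ, θ ^ ((C ∪ A e)ᶜ).card ≤ (1 - c) * Fintype.card Y * θ ^ (Cᶜ).card := by
  classical
  have hθ0 : 0 < θ := by linarith
  have hpu : (0:ℝ) < θ ^ (Cᶜ).card := pow_pos hθ0 _
  have hle : ∀ e, θ ^ ((C ∪ A e)ᶜ).card ≤ θ ^ (Cᶜ).card := by
    intro e
    refine pow_le_pow_right₀ hθ (Finset.card_le_card ?_)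
    exact Finset.compl_subset_compl.2 Finset.subset_union_left
  by_cases hC : c * Fintype.card Y ≤ C.card
  · calc ∑ e ∈ Cᶜ, θ ^ ((C ∪ A e)ᶜ).card ≤ ∑ e ∈ Cᶜ, θ ^ (Cᶜ).card :=
          Finset.sum_le_sum fun e _ => hle e
      _ = ((Cᶜ).card : ℝ) * θ ^ (Cᶜ).card := by rw [Finset.sum_const, nsmul_eq_mul]
      _ ≤ (1 - c) * Fintype.card Y * θ ^ (Cᶜ).card := by
          refine mul_le_mul_of_nonneg_right ?_ hpu.le
          rw [Finset.card_compl, Nat.cast_sub (Finset.card_le_univ _)]
          linarith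
  · push Not at hC
    set Gd := univ.filter fun e : Y => a₀ ≤ (A e \ C).card with hGd
    have hgood : ∀ e ∈ Gd, θ ^ ((C ∪ A e)ᶜ).card ≤ θ ^ (Cᶜ).card / 2 := by
      intro e he
      rw [hGd, mem_filter] at he
      have h1 : ((C ∪ A e)ᶜ).card + a₀ ≤ (Cᶜ).card := by
        have h2 : (C ∪ A e)ᶜ = Cᶜ \ (A e \ C) := by
          ext x
          simp only [mem_compl, mem_union, mem_sdiff, not_or, not_and, not_not]
          tauto
        have h3 : (A e \ C) ⊆ Cᶜ := by
          intro x hx
          simp only [mem_sdiff] at hx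
          simpa using hx.2
        have h4 := Finset.card_sdiff_add_card_eq_card h3
        rw [h2]
        have := he.2
        omega
      rw [le_div_iff₀ (by norm_num)]
      calc θ ^ ((C ∪ A e)ᶜ).card * 2 ≤ θ ^ ((C ∪ A e)ᶜ).card * θ ^ a₀ := by gcongr
        _ = θ ^ (((C ∪ A e)ᶜ).card + a₀) := by rw [pow_add]
        _ ≤ θ ^ (Cᶜ).card := pow_le_pow_right₀ hθ h1
    -- lower bound on the number of good elements
    have hsplit : ∀ e, (A e).card = (A e \ C).card + (A e ∩ C).card := fun e =>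
      (Finset.card_sdiff_add_card_inter (A e) C).symm
    have hAC : ∑ e, (A e ∩ C).card ≤ C.card * Δ := by
      have h1 : ∀ e, (A e ∩ C).card = ∑ y' ∈ C, if y' ∈ A e then 1 else 0 := by
        intro e
        rw [Finset.sum_boole, Finset.inter_comm]
        simp [Finset.filter_mem_eq_inter]
      calc ∑ e, (A e ∩ C).card = ∑ e, ∑ y' ∈ C, (if y' ∈ A e then 1 else 0) :=
            Finset.sum_congr rfl fun e _ => h1 e
        _ = ∑ y' ∈ C, ∑ e, (if y' ∈ A e then 1 else 0) := Finset.sum_comm
        _ ≤ ∑ y' ∈ C, Δ := by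
            refine Finset.sum_le_sum fun y' _ => ?_
            rw [Finset.sum_boole]
            exact_mod_cast hcol y'
        _ = C.card * Δ := by rw [Finset.sum_const, smul_eq_mul]
    have hsum : α ≤ Gd.card * Δ + Fintype.card Y * a₀ + C.card * Δ := by
      calc α ≤ ∑ e, (A e).card := hα
        _ = ∑ e, (A e \ C).card + ∑ e, (A e ∩ C).card := by
            rw [← Finset.sum_add_distrib]
            exact Finset.sum_congr rfl fun e _ => hsplit e
        _ ≤ (Gd.card * Δ + Fintype.card Y * a₀) + C.card * Δ := by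
            refine add_le_add ?_ hAC
            calc ∑ e, (A e \ C).card ≤ ∑ e, ((if e ∈ Gd then Δ else 0) + a₀) := by
                  refine Finset.sum_le_sum fun e _ => ?_
                  by_cases he : e ∈ Gd
                  · rw [if_pos he]
                    have h5 : (A e \ C).card ≤ Δ :=
                      (Finset.card_le_card Finset.sdiff_subset).trans (hrow e)
                    omega
                  · rw [if_neg he]
                    rw [hGd, mem_filter] at he
                    push Not at he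
                    have := he (mem_univ _)
                    omega
              _ = Gd.card * Δ + Fintype.card Y * a₀ := by
                  rw [Finset.sum_add_distrib, Finset.sum_ite_mem, Finset.univ_inter,
                    Finset.sum_const, Finset.sum_const, Finset.card_univ, smul_eq_mul,
                    smul_eq_mul]
    have hΔR : (0:ℝ) < Δ := by exact_mod_cast hΔ0
    have hN0 : (0:ℝ) ≤ Fintype.card Y := Nat.cast_nonneg _
    have hGdc : 2 * c * Fintype.card Y ≤ Gd.card := by
      have h1 : (α:ℝ) ≤ Gd.card * Δ + Fintype.card Y * a₀ + C.card * Δ := by exact_mod_cast hsum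
      have h2 : (4:ℝ) * Fintype.card Y * a₀ ≤ α := by exact_mod_cast ha
      have h3 : (C.card:ℝ) * Δ ≤ c * Fintype.card Y * Δ := by gcongr
      by_contra hcon
      push Not at hcon
      have h4 : (Gd.card:ℝ) * Δ < 2 * c * Fintype.card Y * Δ := by gcongr
      nlinarith
    calc ∑ e ∈ Cᶜ, θ ^ ((C ∪ A e)ᶜ).card ≤ ∑ e, θ ^ ((C ∪ A e)ᶜ).card :=
          Finset.sum_le_sum_of_subset_of_nonneg (subset_univ _) fun e _ _ => (pow_pos hθ0 _).le
      _ ≤ ∑ e, (θ ^ (Cᶜ).card - if e ∈ Gd then θ ^ (Cᶜ).card / 2 else 0) := by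
          refine Finset.sum_le_sum fun e _ => ?_
          split_ifs with he
          · have := hgood e he; linarith
          · have := hle e; linarith
      _ = Fintype.card Y * θ ^ (Cᶜ).card - Gd.card * (θ ^ (Cᶜ).card / 2) := by
          rw [Finset.sum_sub_distrib, Finset.sum_ite_mem, Finset.univ_inter, Finset.sum_const,
            Finset.sum_const, Finset.card_univ, nsmul_eq_mul, nsmul_eq_mul]
      _ ≤ (1 - c) * Fintype.card Y * θ ^ (Cᶜ).card := by
          nlinarith

/-- The number of sequences which are independent off at most `r` indices. -/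
theorem card_badSeq (A : Y → Finset Y) (T r α Δ a₀ : ℕ) (c θ y : ℝ) (hΔ0 : 0 < Δ)
    (hα : α ≤ ∑ e, (A e).card) (hrow : ∀ e, (A e).card ≤ Δ)
    (hcol : ∀ y', (univ.filter fun e => y' ∈ A e).card ≤ Δ)
    (hθ : 1 ≤ θ) (hθ2 : 2 ≤ θ ^ a₀) (ha : 4 * Fintype.card Y * a₀ ≤ α)
    (hc : 8 * Δ * Fintype.card Y * c ≤ α) (hc1 : c ≤ 1) (hy : 0 ≤ y) (hy1 : y ≤ 1) :
    ((badSeq A T r).card : ℝ) * y ^ r ≤
      (Fintype.card Y * (1 - c + y)) ^ T * θ ^ Fintype.card Y := by
  refine (card_badSeq_le A T r y hy hy1).trans ?_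
  have := W_le A y c θ hy hc1 hθ
    (fun C => step_bound A α Δ a₀ c θ hΔ0 hα hrow hcol hθ hθ2 ha hc C) T ∅
  simpa using this

end Pool.Agent.H.MP_4cad9a_co_h81
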