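import Pool.Agent.H.MP_4cad9a_co_h81.Sum

set_option autoImplicit false
set_option linter.unusedSectionVars false

namespace Pool.Agent.H.MP_4cad9a_co_h81

open Finset

variable {V X : Type*} [Fintype V] [DecidableEq V] [Fintype X] [DecidableEq X] {T : ℕ}

/-- A transversal of the types of `M`. -/
lemma exists_transversal (τ : V → X) (M : Finset (V × V)) (s : ℕ)
    (h : s ≤ (M.image (ty τ)).card) :
    ∃ I ⊆ M, I.card = s ∧ ∀ a ∈ I, ∀ b ∈ I, ty τ a = ty τ b → a = b := by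
  classical
  obtain ⟨S, hS1, hS2⟩ := Finset.exists_subset_card_eq h
  have hg : ∀ q : S, ∃ a : V × V, a ∈ M ∧ ty τ a = q.1 := by
    intro q
    obtain ⟨a, ha, hq⟩ := mem_image.1 (hS1 q.2)
    exact ⟨a, ha, hq⟩
  choose g hg using hg
  refine ⟨univ.image g, ?_, ?_, ?_⟩
  · intro a ha
    obtain ⟨q, -, rfl⟩ := mem_image.1 ha
    exact (hg q).1
  · rw [Finset.card_image_of_injective, Finset.card_univ, Fintype.card_coe, hS2]
    intro q q' h
    apply Subtype.ext
    rw [← (hg q).2, ← (hg q').2, h]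
  · intro a ha b hb hab
    obtain ⟨q, -, rfl⟩ := mem_image.1 ha
    obtain ⟨q', -, rfl⟩ := mem_image.1 hb
    rw [(hg q).2, (hg q').2] at hab
    rw [Subtype.ext hab]

open Classical in
/-- Pairs of elements of `I` which are not spoilt by the other graph. -/
noncomputable def PP (τ' : V → X) (e' : Fin T → X × X) (I : Finset (V × V)) :
    Finset ((V × V) × (V × V)) :=
  (I ×ˢ I).filter fun p => ¬ Non e' (τ' p.1.1) (τ' p.2.1) ∧ ¬ Non e' (τ' p.1.2) (τ' p.2.2)

/-- types of the first coordinates -/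
def f1 (τ : V → X) (p : (V × V) × (V × V)) : X × X := (τ p.1.1, τ p.2.1)

/-- types of the second coordinates -/
def f2 (τ : V → X) (p : (V × V) × (V × V)) : X × X := (τ p.1.2, τ p.2.2)

/-- The relation associated to `I`. -/
noncomputable def AA (τ τ' : V → X) (e' : Fin T → X × X) (I : Finset (V × V)) :
    X × X → Finset (X × X) :=
  nb (PP τ' e' I) (f1 τ) (f2 τ)

lemma card_non_le (τ' : V → X) (e' : Fin T → X × X) (K : ℕ)
    (hK : ∀ x, (univ.filter fun v => τ' v = x).card ≤ K) :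
    (open Classical in (univ.filter fun p : V × V => Non e' (τ' p.1) (τ' p.2))).card
      ≤ Nn e' * (K * K) := by
  classical
  have hsub : (univ.filter fun p : V × V => Non e' (τ' p.1) (τ' p.2)) ⊆
      (univ.filter fun q : X × X => Non e' q.1 q.2).biUnion fun q =>
        (univ.filter fun v => τ' v = q.1) ×ˢ (univ.filter fun v => τ' v = q.2) := by
    intro p hp
    simp only [mem_filter, mem_univ, true_and] at hp
    simp only [mem_biUnion, mem_filter, mem_univ, true_and, mem_product]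
    exact ⟨(τ' p.1, τ' p.2), hp, rfl, rfl⟩
  calc _ ≤ ((univ.filter fun q : X × X => Non e' q.1 q.2).biUnion fun q =>
        (univ.filter fun v => τ' v = q.1) ×ˢ (univ.filter fun v => τ' v = q.2)).card := by
        convert Finset.card_le_card hsub
    _ ≤ ∑ q ∈ (univ.filter fun q : X × X => Non e' q.1 q.2),
        ((univ.filter fun v => τ' v = q.1) ×ˢ (univ.filter fun v => τ' v = q.2)).card :=
        Finset.card_biUnion_le
    _ ≤ ∑ q ∈ (univ.filter fun q : X × X => Non e' q.1 q.2), K * K := by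
        refine Finset.sum_le_sum fun q _ => ?_
        rw [Finset.card_product]
        exact Nat.mul_le_mul (hK _) (hK _)
    _ = Nn e' * (K * K) := by
        rw [Finset.sum_const, smul_eq_mul]
        unfold Nn
        congr!

lemma valid_inj_fst {M I : Finset (V × V)} (hM : Valid M) (hI : I ⊆ M) :
    ∀ a ∈ I, ∀ b ∈ I, a.1 = b.1 → a = b := by
  intro a ha b hb hab
  have := @hM (Sum.inl ⟨a, hI ha⟩) (Sum.inl ⟨b, hI hb⟩) hab
  simpa using this

lemma valid_inj_snd {M I : Finset (V × V)} (hM : Valid M) (hI : I ⊆ M) :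
    ∀ a ∈ I, ∀ b ∈ I, a.2 = b.2 → a = b := by
  intro a ha b hb hab
  have := @hM (Sum.inr ⟨a, hI ha⟩) (Sum.inr ⟨b, hI hb⟩) hab
  simpa using this

lemma sq_le_card_PP {M I : Finset (V × V)} (hM : Valid M) (hI : I ⊆ M) (τ' : V → X)
    (e' : Fin T → X × X) (K ν : ℕ) (hK : ∀ x, (univ.filter fun v => τ' v = x).card ≤ K)
    (hν : Nn e' ≤ ν) (h4 : 4 * K ^ 2 * ν ≤ I.card ^ 2) :
    I.card ^ 2 ≤ 2 * (PP τ' e' I).card := by
  classical
  have hsub : I ×ˢ I ⊆ PP τ' e' I ∪
      ((I ×ˢ I).filter fun p => Non e' (τ' p.1.1) (τ' p.2.1)) ∪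
      ((I ×ˢ I).filter fun p => Non e' (τ' p.1.2) (τ' p.2.2)) := by
    intro p hp
    by_cases h1 : Non e' (τ' p.1.1) (τ' p.2.1)
    · exact mem_union_left _ (mem_union_right _ (mem_filter.2 ⟨hp, h1⟩))
    · by_cases h2 : Non e' (τ' p.1.2) (τ' p.2.2)
      · exact mem_union_right _ (mem_filter.2 ⟨hp, h2⟩)
      · exact mem_union_left _ (mem_union_left _ (mem_filter.2 ⟨hp, h1, h2⟩))
  have hb1 : ((I ×ˢ I).filter fun p => Non e' (τ' p.1.1) (τ' p.2.1)).card ≤ ν * (K * K) := by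
    have h1 : ((I ×ˢ I).filter fun p => Non e' (τ' p.1.1) (τ' p.2.1)).card ≤
        (univ.filter fun p : V × V => Non e' (τ' p.1) (τ' p.2)).card := by
      refine Finset.card_le_card_of_injOn (fun p => (p.1.1, p.2.1)) ?_ ?_
      · intro p hp
        simp only [coe_filter, Set.mem_ofPred_eq, mem_univ, true_and] at hp ⊢
        exact hp.2
      · intro p hp q hq hpq
        simp only [coe_filter, Set.mem_ofPred_eq, mem_product] at hp hq
        simp only [Prod.mk.injEq] at hpq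
        exact Prod.ext (valid_inj_fst hM hI _ hp.1.1 _ hq.1.1 hpq.1)
          (valid_inj_fst hM hI _ hp.1.2 _ hq.1.2 hpq.2)
    have h2 := card_non_le τ' e' K hK
    refine h1.trans (le_trans ?_ (Nat.mul_le_mul_right _ hν))
    convert h2
  have hb2 : ((I ×ˢ I).filter fun p => Non e' (τ' p.1.2) (τ' p.2.2)).card ≤ ν * (K * K) := by
    have h1 : ((I ×ˢ I).filter fun p => Non e' (τ' p.1.2) (τ' p.2.2)).card ≤
        (univ.filter fun p : V × V => Non e' (τ' p.1) (τ' p.2)).card := by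
      refine Finset.card_le_card_of_injOn (fun p => (p.1.2, p.2.2)) ?_ ?_
      · intro p hp
        simp only [coe_filter, Set.mem_ofPred_eq, mem_univ, true_and] at hp ⊢
        exact hp.2
      · intro p hp q hq hpq
        simp only [coe_filter, Set.mem_ofPred_eq, mem_product] at hp hq
        simp only [Prod.mk.injEq] at hpq
        exact Prod.ext (valid_inj_snd hM hI _ hp.1.1 _ hq.1.1 hpq.1)
          (valid_inj_snd hM hI _ hp.1.2 _ hq.1.2 hpq.2)
    have h2 := card_non_le τ' e' K hK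
    refine h1.trans (le_trans ?_ (Nat.mul_le_mul_right _ hν))
    convert h2
  have h3 := (Finset.card_le_card hsub).trans (Finset.card_union_le _ _)
  have h5 := Finset.card_union_le (PP τ' e' I)
    ((I ×ˢ I).filter fun p => Non e' (τ' p.1.1) (τ' p.2.1))
  rw [Finset.card_product] at h3
  nlinarith

lemma fib_f1 {M I : Finset (V × V)} (hM : Valid M) (hI : I ⊆ M) (τ τ' : V → X)
    (e' : Fin T → X × X) (K : ℕ) (hK : ∀ x, (univ.filter fun v => τ v = x).card ≤ K)
    (y : X × X) : ((PP τ' e' I).filter fun p => f1 τ p = y).card ≤ K ^ 2 := by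
  classical
  have h1 : ((PP τ' e' I).filter fun p => f1 τ p = y).card ≤
      ((univ.filter fun v => τ v = y.1) ×ˢ (univ.filter fun v => τ v = y.2)).card := by
    refine Finset.card_le_card_of_injOn (fun p => (p.1.1, p.2.1)) ?_ ?_
    · intro p hp
      simp only [coe_filter, Set.mem_ofPred_eq] at hp
      simp only [coe_product, Set.mem_prod, coe_filter, Set.mem_ofPred_eq, mem_univ, true_and]
      rw [← hp.2]
      exact ⟨rfl, rfl⟩
    · intro p hp q hq hpq
      simp only [coe_filter, Set.mem_ofPred_eq, PP, mem_filter, mem_product] at hp hq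
      simp only [Prod.mk.injEq] at hpq
      exact Prod.ext (valid_inj_fst hM hI _ hp.1.1.1 _ hq.1.1.1 hpq.1)
        (valid_inj_fst hM hI _ hp.1.1.2 _ hq.1.1.2 hpq.2)
  rw [Finset.card_product] at h1
  calc _ ≤ _ := h1
    _ ≤ K * K := Nat.mul_le_mul (hK _) (hK _)
    _ = K ^ 2 := (sq K).symm

lemma fib_f2 {M I : Finset (V × V)} (hM : Valid M) (hI : I ⊆ M) (τ τ' : V → X)
    (e' : Fin T → X × X) (K : ℕ) (hK : ∀ x, (univ.filter fun v => τ v = x).card ≤ K)
    (y : X × X) : ((PP τ' e' I).filter fun p => f2 τ p = y).card ≤ K ^ 2 := by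
  classical
  have h1 : ((PP τ' e' I).filter fun p => f2 τ p = y).card ≤
      ((univ.filter fun v => τ v = y.1) ×ˢ (univ.filter fun v => τ v = y.2)).card := by
    refine Finset.card_le_card_of_injOn (fun p => (p.1.2, p.2.2)) ?_ ?_
    · intro p hp
      simp only [coe_filter, Set.mem_ofPred_eq] at hp
      simp only [coe_product, Set.mem_prod, coe_filter, Set.mem_ofPred_eq, mem_univ, true_and]
      rw [← hp.2]
      exact ⟨rfl, rfl⟩
    · intro p hp q hq hpq
      simp only [coe_filter, Set.mem_ofPred_eq, PP, mem_filter, mem_product] at hp hq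
      simp only [Prod.mk.injEq] at hpq
      exact Prod.ext (valid_inj_snd hM hI _ hp.1.1.1 _ hq.1.1.1 hpq.1)
        (valid_inj_snd hM hI _ hp.1.1.2 _ hq.1.1.2 hpq.2)
  rw [Finset.card_product] at h1
  calc _ ≤ _ := h1
    _ ≤ K * K := Nat.mul_le_mul (hK _) (hK _)
    _ = K ^ 2 := (sq K).symm

/-- Bound on the number of sequences missing all pairs of `I`. -/
lemma card_badSeq_AA {M I : Finset (V × V)} (hM : Valid M) (hI : I ⊆ M) (τ τ' : V → X)
    (htr : ∀ a ∈ I, ∀ b ∈ I, ty τ a = ty τ b → a = b)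
    (e' : Fin T → X × X) (K ν r a₀ s : ℕ) (c θ y : ℝ) (hK0 : 0 < K) (hs : I.card = s)
    (hK : ∀ x, (univ.filter fun v => τ v = x).card ≤ K)
    (hK' : ∀ x, (univ.filter fun v => τ' v = x).card ≤ K)
    (hν : Nn e' ≤ ν) (h4 : 4 * K ^ 2 * ν ≤ s ^ 2)
    (hθ : 1 ≤ θ) (hθ2 : 2 ≤ θ ^ a₀) (ha : 8 * Fintype.card (X × X) * a₀ ≤ s ^ 2)
    (hc : 16 * K ^ 2 * Fintype.card (X × X) * c ≤ s ^ 2) (hc1 : c ≤ 1) (hy : 0 ≤ y)
    (hy1 : y ≤ 1) :
    ((badSeq (AA τ τ' e' I) T r).card : ℝ) * y ^ r ≤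
      (Fintype.card (X × X) * (1 - c + y)) ^ T * θ ^ Fintype.card (X × X) := by
  classical
  have hP := sq_le_card_PP hM hI τ' e' K ν hK' hν (by rw [hs]; exact h4)
  rw [hs] at hP
  refine card_badSeq (AA τ τ' e' I) T r (PP τ' e' I).card (K ^ 2) a₀ c θ y (by positivity) ?_
    ?_ ?_ hθ hθ2 ?_ ?_ hc1 hy hy1
  · refine le_of_eq (nb_sum _ _ _ ?_).symm
    intro p hp q hq h1 h2
    simp only [PP, mem_filter, mem_product] at hp hq
    simp only [f1, f2, Prod.mk.injEq] at h1 h2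
    exact Prod.ext (htr _ hp.1.1 _ hq.1.1 (Prod.ext h1.1 h2.1))
      (htr _ hp.1.2 _ hq.1.2 (Prod.ext h1.2 h2.2))
  · exact nb_card_le _ _ _ _ (fib_f1 hM hI τ τ' e' K hK)
  · exact nb_col_le _ _ _ _ (fib_f2 hM hI τ τ' e' K hK)
  · have h8 : 8 * Fintype.card (X × X) * a₀ = 2 * (4 * Fintype.card (X × X) * a₀) := by ring
    omega
  · have hPR : (s:ℝ) ^ 2 ≤ 2 * (PP τ' e' I).card := by exact_mod_cast hP
    push_cast
    linarith

/-- What a good sequence gives. -/
lemma hit {M I : Finset (V × V)} (hI : I ⊆ M) (τ τ' : V → X) (e e' : Fin T → X × X) (r : ℕ)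
    (hbad : e ∉ badSeq (AA τ τ' e' I) T r) (hdest : (Dest e).card ≤ r) :
    ∃ a ∈ M, ∃ b ∈ M, (adj e (τ a.1) (τ b.1) ∧ ¬ Non e (τ a.1) (τ b.1) ∧
      ¬ Non e' (τ' a.1) (τ' b.1)) ∧ (adj e (τ a.2) (τ b.2) ∧ ¬ Non e (τ a.2) (τ b.2) ∧
      ¬ Non e' (τ' a.2) (τ' b.2)) := by
  classical
  have h1 : ¬ ∃ R : Finset (Fin T), R.card ≤ r ∧
      ∀ l, l ∉ R → ∀ l', l' ∉ R → l' < l → e l ∉ AA τ τ' e' I (e l') := by
    intro h
    exact hbad (by rw [badSeq, mem_filter]; exact ⟨mem_univ _, h⟩)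
  push Not at h1
  obtain ⟨l, hl, l', hl', -, hmem⟩ := h1 (Dest e) hdest
  rw [AA, nb, mem_image] at hmem
  obtain ⟨p, hp, hp2⟩ := hmem
  rw [mem_filter] at hp
  obtain ⟨hpP, hp1⟩ := hp
  rw [PP, mem_filter, mem_product] at hpP
  obtain ⟨⟨ha, hb⟩, hn1, hn2⟩ := hpP
  simp only [Dest, mem_filter, mem_univ, true_and] at hl hl'
  rw [← hp1] at hl'
  rw [← hp2] at hl
  simp only [f1, f2] at hl hl' hp1 hp2
  have e1 : τ p.1.1 ≠ τ p.2.1 := fun h => hl' (Or.inl h)
  have e2 : τ p.1.2 ≠ τ p.2.2 := fun h => hl (Or.inl h)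
  exact ⟨p.1, hI ha, p.2, hI hb, ⟨⟨e1, l', Or.inl hp1.symm⟩, hl', hn1⟩,
    ⟨⟨e2, l, Or.inl hp2.symm⟩, hl, hn2⟩⟩

end Pool.Agent.H.MP_4cad9a_co_h81
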