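import Pool.Agent.H.MP_4cad9a_co_h81.Exist

set_option autoImplicit false
set_option exponentiation.threshold 100000

namespace Pool.Agent.H.MP_4cad9a_co_h81

lemma hA_of (n m s : ℕ) (hs : 1 ≤ s)
    (hbase : (3 * n ^ 2) ^ 20 * (3 * m ^ 2) ^ 2 * s ^ 40 * 4 ≤ m ^ 80 * (20 * s) ^ 20 * s ^ 2) :
    4 * (n ^ 2).choose (20 * s) * ((m ^ 2).choose s) ^ 2 * s ^ (2 * (20 * s))
      ≤ m ^ (4 * (20 * s)) := by
  have h1 := choose_mul_pow_le (n ^ 2) (20 * s)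
  have h2 := choose_mul_pow_le (m ^ 2) s
  have hpos : 0 < (20 * s) ^ (20 * s) * (s ^ s) ^ 2 := by positivity
  refine Nat.le_of_mul_le_mul_right ?_ hpos
  calc 4 * (n ^ 2).choose (20 * s) * ((m ^ 2).choose s) ^ 2 * s ^ (2 * (20 * s)) *
        ((20 * s) ^ (20 * s) * (s ^ s) ^ 2)
      = 4 * ((n ^ 2).choose (20 * s) * (20 * s) ^ (20 * s)) *
        ((m ^ 2).choose s * s ^ s) ^ 2 * s ^ (2 * (20 * s)) := by ring
    _ ≤ 4 * (3 * n ^ 2) ^ (20 * s) * ((3 * m ^ 2) ^ s) ^ 2 * s ^ (2 * (20 * s)) := by gcongr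
    _ ≤ 4 ^ s * (3 * n ^ 2) ^ (20 * s) * ((3 * m ^ 2) ^ s) ^ 2 * s ^ (2 * (20 * s)) := by
        have h4 : 4 ≤ 4 ^ s := by
          calc 4 = 4 ^ 1 := by norm_num
            _ ≤ 4 ^ s := Nat.pow_le_pow_right (by norm_num) hs
        gcongr
    _ = ((3 * n ^ 2) ^ 20 * (3 * m ^ 2) ^ 2 * s ^ 40 * 4) ^ s := by
        rw [mul_pow _ 4 s, mul_pow _ (s ^ 40) s, mul_pow ((3 * n ^ 2) ^ 20) _ s,
          ← pow_mul _ 20 s, ← pow_mul _ 2 s, ← pow_mul _ 40 s, ← pow_mul _ s 2,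
          mul_comm s 2, show 2 * (20 * s) = 40 * s by ring]
        generalize (3 * n ^ 2) ^ (20 * s) = A
        generalize (3 * m ^ 2) ^ (2 * s) = B
        generalize s ^ (40 * s) = C
        generalize 4 ^ s = D
        ring
    _ ≤ (m ^ 80 * (20 * s) ^ 20 * s ^ 2) ^ s := Nat.pow_le_pow_left hbase s
    _ = m ^ (4 * (20 * s)) * ((20 * s) ^ (20 * s) * (s ^ s) ^ 2) := by
        rw [mul_pow _ (s ^ 2) s, mul_pow _ ((20 * s) ^ 20) s, ← pow_mul _ 80 s,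
          ← pow_mul _ 20 s, ← pow_mul _ 2 s, ← pow_mul _ s 2, mul_comm s 2,
          show 4 * (20 * s) = 80 * s by ring]
        generalize m ^ (80 * s) = A
        generalize (20 * s) ^ (20 * s) = B
        generalize s ^ (2 * s) = C
        ring

lemma hKK_of (n m K : ℕ) (h1 : 10 * n ≤ m * (K + 1)) (h2 : 16 * m ≤ 3 ^ (K + 1)) :
    16 * m * n.choose (K + 1) ≤ m ^ (K + 1) := by
  have h3 := choose_mul_pow_le n (K + 1)
  have hpos : 0 < (K + 1) ^ (K + 1) := by positivity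
  refine Nat.le_of_mul_le_mul_right ?_ hpos
  calc 16 * m * n.choose (K + 1) * (K + 1) ^ (K + 1)
      = 16 * m * (n.choose (K + 1) * (K + 1) ^ (K + 1)) := by ring
    _ ≤ 3 ^ (K + 1) * (3 * n) ^ (K + 1) := Nat.mul_le_mul h2 h3
    _ = (9 * n) ^ (K + 1) := by rw [← mul_pow]; ring_nf
    _ ≤ (m * (K + 1)) ^ (K + 1) := Nat.pow_le_pow_left (by omega) _
    _ = m ^ (K + 1) * (K + 1) ^ (K + 1) := by rw [mul_pow]

lemma hB_of (n t T r M a₀ : ℕ) (c θ L : ℝ) (hc1 : c ≤ 1) (ha₀ : 0 < a₀)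
    (hθ : θ = 1 + 1 / (a₀:ℝ)) (hn : (n:ℝ) ≤ Real.exp L)
    (hc : Real.exp (-20) ≤ c / 2)
    (hmain : 3 + 2 * t * L + (M:ℝ) / a₀ + 20 * r ≤ T * (c / 2)) :
    16 * (n:ℝ) ^ (2 * t) * (1 - c / 2) ^ T * θ ^ M ≤ (c / 2) ^ r := by
  have h1 : (16:ℝ) ≤ Real.exp 3 := by
    have h := Real.exp_one_gt_d9
    have h3 : Real.exp 3 = Real.exp 1 ^ 3 := by rw [← Real.exp_nat_mul]; norm_num
    rw [h3]
    calc (16:ℝ) ≤ 2.7 ^ 3 := by norm_num
      _ ≤ Real.exp 1 ^ 3 := by gcongr; linarith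
  have h2 : (n:ℝ) ^ (2 * t) ≤ Real.exp (2 * t * L) := by
    calc (n:ℝ) ^ (2 * t) ≤ Real.exp L ^ (2 * t) := by gcongr
      _ = Real.exp (2 * t * L) := by rw [← Real.exp_nat_mul]; push_cast; ring_nf
  have h3 : (1 - c / 2) ^ T ≤ Real.exp (-(T * (c / 2))) := by
    calc (1 - c / 2) ^ T ≤ Real.exp (-(c / 2)) ^ T := by
          have := Real.one_sub_le_exp_neg (c / 2)
          have h0 : 0 ≤ 1 - c / 2 := by linarith
          gcongr
      _ = Real.exp (-(T * (c / 2))) := by rw [← Real.exp_nat_mul]; ring_nf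
  have h4 : θ ^ M ≤ Real.exp ((M:ℝ) / a₀) := by
    have ha : (0:ℝ) < a₀ := by exact_mod_cast ha₀
    calc θ ^ M ≤ Real.exp (1 / (a₀:ℝ)) ^ M := by
          have h5 : θ ≤ Real.exp (1 / (a₀:ℝ)) := by
            rw [hθ]; have := Real.add_one_le_exp (1 / (a₀:ℝ)); linarith
          have h0 : 0 ≤ θ := by rw [hθ]; positivity
          gcongr
      _ = Real.exp ((M:ℝ) / a₀) := by rw [← Real.exp_nat_mul]; ring_nf
  have h5 : Real.exp (-(20 * r)) ≤ (c / 2) ^ r := by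
    calc Real.exp (-(20 * r)) = Real.exp (-20) ^ r := by rw [← Real.exp_nat_mul]; ring_nf
      _ ≤ (c / 2) ^ r := by gcongr
  have h0 : 0 ≤ (1 - c / 2) ^ T := pow_nonneg (by linarith) _
  have h0' : 0 ≤ θ ^ M := by rw [hθ]; positivity
  calc 16 * (n:ℝ) ^ (2 * t) * (1 - c / 2) ^ T * θ ^ M
      ≤ Real.exp 3 * Real.exp (2 * t * L) * Real.exp (-(T * (c / 2))) *
        Real.exp ((M:ℝ) / a₀) := by gcongr
    _ = Real.exp (3 + 2 * t * L + (-(T * (c / 2))) + (M:ℝ) / a₀) := by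
        rw [← Real.exp_add, ← Real.exp_add, ← Real.exp_add]
    _ ≤ Real.exp (-(20 * r)) := by
        apply Real.exp_le_exp.2
        linarith
    _ ≤ (c / 2) ^ r := h5

lemma exp_neg_twenty : Real.exp (-20) ≤ (1 / 10 ^ 8) / 2 := by
  have h := Real.exp_one_gt_d9
  have h3 : Real.exp 20 = Real.exp 1 ^ 20 := by rw [← Real.exp_nat_mul]; norm_num
  have h4 : (2 * 10 ^ 8 : ℝ) ≤ Real.exp 20 := by
    rw [h3]
    calc (2 * 10 ^ 8 : ℝ) ≤ 2.7 ^ 20 := by norm_num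
      _ ≤ Real.exp 1 ^ 20 := by gcongr; linarith
  rw [Real.exp_neg]
  calc (Real.exp 20)⁻¹ ≤ (2 * 10 ^ 8 : ℝ)⁻¹ := by gcongr
    _ = _ := by norm_num

lemma exists_num : ∃ (n m s t T K r ν a₀ : ℕ) (c θ : ℝ), n = 10 * t ∧
    Num n m s t T K r ν a₀ c θ := by
  obtain ⟨m, hm⟩ : ∃ m : ℕ, m = 10 ^ 400 := ⟨_, rfl⟩
  obtain ⟨s, hs⟩ : ∃ s : ℕ, s = 5 * 10 ^ 517 := ⟨_, rfl⟩
  obtain ⟨T, hT⟩ : ∃ T : ℕ, T = 10 ^ 580 := ⟨_, rfl⟩
  obtain ⟨K, hK⟩ : ∃ K : ℕ, K = 10 ^ 121 := ⟨_, rfl⟩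
  obtain ⟨r, hr⟩ : ∃ r : ℕ, r = 10 ^ 569 := ⟨_, rfl⟩
  obtain ⟨ν, hν⟩ : ∃ ν : ℕ, ν = 10 ^ 792 := ⟨_, rfl⟩
  obtain ⟨a₀, ha⟩ : ∃ a₀ : ℕ, a₀ = 10 ^ 234 := ⟨_, rfl⟩
  obtain ⟨c, hc⟩ : ∃ c : ℝ, c = 1 / 10 ^ 8 := ⟨_, rfl⟩
  have ha0 : 0 < a₀ := by rw [ha]; positivity
  have haR : (0:ℝ) < a₀ := by exact_mod_cast ha0
  refine ⟨10 * (20 * s), m, s, 20 * s, T, K, r, ν, a₀, c, 1 + 1 / (a₀:ℝ), rfl, ?_⟩
  refine
    { hT0 := by rw [hT]; positivity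
      hm0 := by rw [hm]; positivity
      hs1 := by rw [hs]; norm_num
      hsm := by rw [hs, hm]; norm_num
      hK0 := by rw [hK]; positivity
      hA := hA_of _ _ _ (by rw [hs]; norm_num) (by rw [hs, hm]; norm_num)
      hKK := hKK_of _ _ _ (by rw [hs, hm, hK]; norm_num) ?_
      hN := by rw [hm, hT, hν]; norm_num
      hD := by rw [hm, hT, hr]; norm_num
      hν := by rw [hK, hν, hs]; norm_num
      ha := by rw [hm, ha, hs]; norm_num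
      hc0 := by rw [hc]; norm_num
      hc1 := by rw [hc]; norm_num
      hc := by rw [hK, hm, hc, hs]; norm_num
      hθ := by have : 0 ≤ 1 / (a₀:ℝ) := by positivity
               linarith
      hθ2 := ?_
      hB := ?_ }
  · calc 16 * m ≤ 3 ^ 1000 := by rw [hm]; norm_num
      _ ≤ 3 ^ (K + 1) := Nat.pow_le_pow_right (by norm_num) (by rw [hK]; norm_num)
  · have h := one_add_mul_le_pow (a := 1 / (a₀:ℝ)) (by
      have : 0 ≤ 1 / (a₀:ℝ) := by positivity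
      linarith) a₀
    have h2 : (a₀:ℝ) * (1 / (a₀:ℝ)) = 1 := by field_simp
    rw [h2] at h
    linarith
  · refine hB_of _ _ _ _ _ _ c _ (3 * 520) (by rw [hc]; norm_num) ha0 rfl
      ?_ (by rw [hc]; exact exp_neg_twenty) ?_
    · have h10 : (10:ℝ) ≤ Real.exp 3 := by
        have h := Real.exp_one_gt_d9
        have h3 : Real.exp 3 = Real.exp 1 ^ 3 := by rw [← Real.exp_nat_mul]; norm_num
        rw [h3]
        calc (10:ℝ) ≤ 2.7 ^ 3 := by norm_num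
          _ ≤ Real.exp 1 ^ 3 := by gcongr; linarith
      have h1 : ((10 * (20 * s) : ℕ) : ℝ) = 10 ^ 520 := by
        rw [hs]; norm_num
      rw [h1]
      calc (10:ℝ) ^ 520 ≤ Real.exp 3 ^ 520 := by gcongr
        _ = Real.exp (3 * 520) := by rw [← Real.exp_nat_mul]; norm_num
    · rw [hs, hm, ha, hr, hT, hc]
      norm_num

end Pool.Agent.H.MP_4cad9a_co_h81
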