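import Pool.Agent.H.MP_4cad9a_co_h81.Graph
import Pool.Agent.H.MP_4cad9a_co_h81.Hits

set_option autoImplicit false
set_option linter.unusedSectionVars false

namespace Pool.Agent.H.MP_4cad9a_co_h81

open Finset

section markov

variable {X : Type*} [Fintype X] [DecidableEq X] {T : ℕ}

open Classical in
/-- number of pairs which are equal or have a common neighbour -/
noncomputable def Nn (e : Fin T → X × X) : ℕ :=
  (univ.filter fun q : X × X => Non e q.1 q.2).card

open Classical in
/-- indices whose edge is a loop or lies in a triangle -/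
noncomputable def Dest (e : Fin T → X × X) : Finset (Fin T) :=
  univ.filter fun l => Non e (e l).1 (e l).2

lemma sum_Nn : (∑ e : Fin T → X × X, Nn e) * Fintype.card (X × X) ^ 2 ≤
    (Fintype.card X * Fintype.card (X × X) ^ 2 + 4 * Fintype.card X ^ 3 * T ^ 2) *
      Fintype.card (X × X) ^ T := by
  classical
  have h1 : ∑ e : Fin T → X × X, Nn e =
      ∑ q : X × X, (univ.filter fun e : Fin T → X × X => Non e q.1 q.2).card := by
    unfold Nn
    simp only [Finset.card_filter]
    rw [Finset.sum_comm]
  rw [h1, Finset.sum_mul]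
  have h2 : ∀ q : X × X, (univ.filter fun e : Fin T → X × X => Non e q.1 q.2).card *
      Fintype.card (X × X) ^ 2 ≤ (if q.1 = q.2 then Fintype.card (X × X) ^ 2 *
        Fintype.card (X × X) ^ T else 0) +
        4 * Fintype.card X * T ^ 2 * Fintype.card (X × X) ^ T := by
    intro q
    by_cases hq : q.1 = q.2
    · rw [if_pos hq]
      have h3 : (univ.filter fun e : Fin T → X × X => Non e q.1 q.2).card ≤
          Fintype.card (X × X) ^ T := by
        refine (Finset.card_le_univ _).trans (le_of_eq ?_)
        rw [Fintype.card_fun, Fintype.card_fin]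
      calc _ ≤ Fintype.card (X × X) ^ T * Fintype.card (X × X) ^ 2 := Nat.mul_le_mul_right _ h3
        _ ≤ _ := by rw [mul_comm]; exact Nat.le_add_right _ _
    · rw [if_neg hq, zero_add]
      have h3 : (univ.filter fun e : Fin T → X × X => Non e q.1 q.2) =
          (univ.filter fun e : Fin T → X × X => ∃ z, adj e q.1 z ∧ adj e z q.2) := by
        ext e
        simp only [mem_filter, mem_univ, true_and, Non]
        constructor
        · rintro (h | h)
          · exact absurd h hq
          · exact h
        · exact Or.inr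
      rw [h3]
      exact card_path q.1 q.2 hq
  refine (Finset.sum_le_sum fun q _ => h2 q).trans ?_
  rw [Finset.sum_add_distrib, ← Finset.sum_filter, Finset.sum_const, Finset.sum_const,
    Finset.card_univ, smul_eq_mul, smul_eq_mul]
  have h4 : (univ.filter fun q : X × X => q.1 = q.2).card = Fintype.card X := by
    have : (univ.filter fun q : X × X => q.1 = q.2) = (univ : Finset X).diag := by
      ext q; simp [Finset.mem_diag]
    rw [this, Finset.diag_card, Finset.card_univ]
  rw [h4]
  have h5 : Fintype.card (X × X) = Fintype.card X * Fintype.card X := Fintype.card_prod _ _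
  have h6 : Fintype.card (X × X) * (4 * Fintype.card X * T ^ 2 * Fintype.card (X × X) ^ T)
      = 4 * Fintype.card X ^ 3 * T ^ 2 * Fintype.card (X × X) ^ T := by
    nth_rewrite 1 [h5]; ring
  rw [h6]
  exact le_of_eq (by ring)

lemma sum_Dest : (∑ e : Fin T → X × X, (Dest e).card) * Fintype.card (X × X) ^ 3 ≤
    T * (Fintype.card X * Fintype.card (X × X) ^ 2 + 4 * Fintype.card X ^ 3 * T ^ 2) *
      Fintype.card (X × X) ^ T := by
  classical
  have h1 : ∑ e : Fin T → X × X, (Dest e).card =
      ∑ l : Fin T, (univ.filter fun e : Fin T → X × X => Non e (e l).1 (e l).2).card := by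
    unfold Dest
    simp only [Finset.card_filter]
    rw [Finset.sum_comm]
  rw [h1, Finset.sum_mul]
  have h2 : ∀ l : Fin T, (univ.filter fun e : Fin T → X × X => Non e (e l).1 (e l).2).card *
      Fintype.card (X × X) ^ 3 ≤ (Fintype.card X * Fintype.card (X × X) ^ 2 +
        4 * Fintype.card X ^ 3 * T ^ 2) * Fintype.card (X × X) ^ T := by
    intro l
    have h3 : (univ.filter fun e : Fin T → X × X => Non e (e l).1 (e l).2) ⊆
        (univ.filter fun e : Fin T → X × X => (e l).1 = (e l).2) ∪
        (univ.filter fun e : Fin T → X × X =>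
          (e l).1 ≠ (e l).2 ∧ ∃ z, adj e (e l).1 z ∧ adj e z (e l).2) := by
      intro e he
      simp only [mem_filter, mem_univ, true_and, mem_union] at he ⊢
      by_cases h : (e l).1 = (e l).2
      · exact Or.inl h
      · right
        refine ⟨h, ?_⟩
        rcases he with he | he
        · exact absurd he h
        · exact he
    have h4 := (Finset.card_le_card h3).trans (Finset.card_union_le _ _)
    have h5 := card_loop (X := X) l
    have h6 := card_path3 (X := X) l
    calc _ ≤ ((univ.filter fun e : Fin T → X × X => (e l).1 = (e l).2).card +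
        (univ.filter fun e : Fin T → X × X =>
          (e l).1 ≠ (e l).2 ∧ ∃ z, adj e (e l).1 z ∧ adj e z (e l).2).card) *
          Fintype.card (X × X) ^ 3 := Nat.mul_le_mul_right _ h4
      _ = ((univ.filter fun e : Fin T → X × X => (e l).1 = (e l).2).card *
          Fintype.card (X × X)) * Fintype.card (X × X) ^ 2 +
        (univ.filter fun e : Fin T → X × X =>
          (e l).1 ≠ (e l).2 ∧ ∃ z, adj e (e l).1 z ∧ adj e z (e l).2).card *
          Fintype.card (X × X) ^ 3 := by ring
      _ ≤ (Fintype.card X * Fintype.card (X × X) ^ T) * Fintype.card (X × X) ^ 2 +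
          4 * Fintype.card X ^ 3 * T ^ 2 * Fintype.card (X × X) ^ T :=
          add_le_add (Nat.mul_le_mul_right _ h5) h6
      _ = _ := by ring
  refine (Finset.sum_le_sum fun l _ => h2 l).trans ?_
  rw [Finset.sum_const, Finset.card_univ, Fintype.card_fin, smul_eq_mul]
  exact le_of_eq (by ring)

lemma markov {Ω : Type*} [Fintype Ω] (f : Ω → ℕ) (ν : ℕ) :
    (univ.filter fun ω => ν < f ω).card * ν ≤ ∑ ω, f ω := by
  calc _ = ∑ ω ∈ univ.filter (fun ω => ν < f ω), ν := by rw [Finset.sum_const, smul_eq_mul]
    _ ≤ ∑ ω ∈ univ.filter (fun ω => ν < f ω), f ω :=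
        Finset.sum_le_sum fun ω hω => (mem_filter.1 hω).2.le
    _ ≤ ∑ ω, f ω := Finset.sum_le_sum_of_subset (Finset.filter_subset _ _)

end markov

section fib

variable {Γ Y : Type*} [DecidableEq Γ] [DecidableEq Y] [Fintype Y]

/-- neighbourhoods of the bipartite relation `{(f p, g p)}` -/
def nb (P : Finset Γ) (f g : Γ → Y) (y : Y) : Finset Y := (P.filter fun p => f p = y).image g

lemma nb_card_le (P : Finset Γ) (f g : Γ → Y) (Δ : ℕ)
    (hf : ∀ y, (P.filter fun p => f p = y).card ≤ Δ) (y : Y) : (nb P f g y).card ≤ Δ :=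
  Finset.card_image_le.trans (hf y)

lemma nb_col_le (P : Finset Γ) (f g : Γ → Y) (Δ : ℕ)
    (hg : ∀ y, (P.filter fun p => g p = y).card ≤ Δ) (y' : Y) :
    (univ.filter fun y => y' ∈ nb P f g y).card ≤ Δ := by
  refine le_trans ?_ (hg y')
  have : (univ.filter fun y => y' ∈ nb P f g y) ⊆ (P.filter fun p => g p = y').image f := by
    intro y hy
    simp only [mem_filter, mem_univ, true_and, nb, mem_image] at hy
    obtain ⟨p, ⟨hp1, hp2⟩, hp3⟩ := hy
    exact mem_image.2 ⟨p, mem_filter.2 ⟨hp1, hp3⟩, hp2⟩
  exact (Finset.card_le_card this).trans Finset.card_image_le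

lemma nb_sum (P : Finset Γ) (f g : Γ → Y)
    (hinj : ∀ p ∈ P, ∀ q ∈ P, f p = f q → g p = g q → p = q) :
    ∑ y, (nb P f g y).card = P.card := by
  have h1 : ∀ y, (nb P f g y).card = (P.filter fun p => f p = y).card := by
    intro y
    refine Finset.card_image_of_injOn ?_
    intro p hp q hq hpq
    simp only [coe_filter, Set.mem_ofPred_eq] at hp hq
    exact hinj p hp.1 q hq.1 (hp.2.trans hq.2.symm) hpq
  rw [Finset.sum_congr rfl fun y _ => h1 y]
  exact (Finset.card_eq_sum_card_fiberwise (fun _ _ => mem_univ _)).symm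

end fib

end Pool.Agent.H.MP_4cad9a_co_h81
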